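import Pool.Agent.R563.TP.Mom3

set_option autoImplicit false

/-!
# The core estimate
-/

namespace Pool.Agent.R563.TP

open Finset
open scoped Classical

namespace CoreEst

variable {k S W u : ℕ}

/-- the index set -/
abbrev XX (S W : ℕ) : Type := (Fin S × Fin W) ⊕ (Fin S × Fin W)

/-- the entry for the first cell `s` with contents `v` and the second cell `s'` with contents `v'` -/
noncomputable def ent (A : Alg k S W) (e : Fin k → Fin u) (α : Fin k × Fin u) (p p' : Fin S × Fin W) :
    ℝ :=
  ∑ i, if e i = α.2 ∧ A.a i α.1 = p.1 ∧ A.b i α.1 p.2 = p'.1 then sg (A.g i α.1 p.2 p'.2) else 0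

/-- the symmetric matrices -/
noncomputable def C (A : Alg k S W) (e : Fin k → Fin u) (α : Fin k × Fin u) : XX S W → XX S W → ℝ
  | Sum.inl p, Sum.inr p' => ent A e α p p'
  | Sum.inr p', Sum.inl p => ent A e α p p'
  | Sum.inl _, Sum.inl _ => 0
  | Sum.inr _, Sum.inr _ => 0

theorem C_symm (A : Alg k S W) (e : Fin k → Fin u) (α : Fin k × Fin u) (x y : XX S W) :
    C A e α x y = C A e α y x := by
  rcases x with x | x <;> rcases y with y | y <;> rfl

/-- number of queries with first cell `s` -/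
noncomputable def dA (A : Alg k S W) (s : Fin S) : ℝ :=
  ∑ j : Fin k, ((univ.filter fun i : Fin k => A.a i j = s).card : ℝ)

/-- number of queries and contents with second cell `s` -/
noncomputable def dB (A : Alg k S W) (s : Fin S) : ℝ :=
  ∑ j : Fin k, ∑ v : Fin W, ((univ.filter fun i : Fin k => A.b i j v = s).card : ℝ)

theorem sum_dA (A : Alg k S W) : ∑ s, dA A s = (k : ℝ) ^ 2 := by
  unfold dA
  rw [sum_comm]
  have : ∀ j : Fin k, ∑ s : Fin S, ((univ.filter fun i : Fin k => A.a i j = s).card : ℝ) = k := by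
    intro j
    rw [← Nat.cast_sum, ← Finset.card_eq_sum_card_fiberwise (f := fun i => A.a i j)
      (s := univ) (t := univ) (fun _ _ => by simp)]
    simp
  simp only [this]
  simp [sq]

theorem sum_dB (A : Alg k S W) : ∑ s, dB A s = W * (k : ℝ) ^ 2 := by
  unfold dB
  rw [sum_comm]
  have : ∀ j : Fin k, ∑ s : Fin S, ∑ v : Fin W,
      ((univ.filter fun i : Fin k => A.b i j v = s).card : ℝ) = W * k := by
    intro j
    rw [sum_comm]
    have h2 : ∀ v : Fin W, ∑ s : Fin S,
        ((univ.filter fun i : Fin k => A.b i j v = s).card : ℝ) = k := by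
      intro v
      rw [← Nat.cast_sum, ← Finset.card_eq_sum_card_fiberwise (f := fun i => A.b i j v)
        (s := univ) (t := univ) (fun _ _ => by simp)]
      simp
    simp only [h2]
    simp
  simp only [this]
  simp only [sum_const, card_univ, Fintype.card_fin, nsmul_eq_mul]
  ring

theorem abs_ent (A : Alg k S W) (e : Fin k → Fin u) (α : Fin k × Fin u) (p p' : Fin S × Fin W) :
    |ent A e α p p'| ≤
      ∑ i, if e i = α.2 ∧ A.a i α.1 = p.1 ∧ A.b i α.1 p.2 = p'.1 then (1 : ℝ) else 0 := by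
  unfold ent
  refine (abs_sum_le_sum_abs _ _).trans (sum_le_sum fun i _ => ?_)
  split_ifs
  · exact (Mom.abs_sg _).le
  · simp

theorem row_left (A : Alg k S W) (e : Fin k → Fin u) (α : Fin k × Fin u) (p : Fin S × Fin W) :
    ∑ p', |ent A e α p p'| ≤ W * ((univ.filter fun i : Fin k => A.a i α.1 = p.1 ∧ e i = α.2).card : ℝ) := by
  refine (sum_le_sum fun p' _ => abs_ent A e α p p').trans ?_
  rw [Fintype.sum_prod_type, sum_comm]
  have : ∀ v' : Fin W, ∑ s' : Fin S, ∑ i : Fin k,
      (if e i = α.2 ∧ A.a i α.1 = p.1 ∧ A.b i α.1 p.2 = s' then (1 : ℝ) else 0) =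
      ((univ.filter fun i : Fin k => A.a i α.1 = p.1 ∧ e i = α.2).card : ℝ) := by
    intro v'
    rw [sum_comm, Finset.card_filter]
    push_cast
    refine sum_congr rfl fun i _ => ?_
    by_cases h1 : e i = α.2 <;> by_cases h2 : A.a i α.1 = p.1 <;> simp [h1, h2]
  refine (sum_le_sum fun v' _ => (this v').le).trans (le_of_eq ?_)
  rw [sum_const, card_univ, Fintype.card_fin, nsmul_eq_mul]

theorem row_right (A : Alg k S W) (e : Fin k → Fin u) (α : Fin k × Fin u) (p' : Fin S × Fin W) :
    ∑ p, |ent A e α p p'| ≤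
      ∑ v : Fin W, ((univ.filter fun i : Fin k => A.b i α.1 v = p'.1 ∧ e i = α.2).card : ℝ) := by
  refine (sum_le_sum fun p _ => abs_ent A e α p p').trans ?_
  rw [Fintype.sum_prod_type, sum_comm]
  refine le_of_eq (sum_congr rfl fun v _ => ?_)
  simp only
  rw [sum_comm, Finset.card_filter]
  push_cast
  refine sum_congr rfl fun i _ => ?_
  by_cases h1 : e i = α.2 <;> by_cases h2 : A.b i α.1 v = p'.1 <;> simp [h1, h2]

/-- the weights -/
noncomputable def lam (A : Alg k S W) (D0 : ℝ) : XX S W → ℝ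
  | Sum.inl p => max (dA A p.1) D0
  | Sum.inr p => max (dB A p.1 / W) D0

/-- the contents as a vector -/
noncomputable def vec (c : Fin S → Fin W) : XX S W → ℝ
  | Sum.inl p => if c p.1 = p.2 then 1 else 0
  | Sum.inr p => if c p.1 = p.2 then 1 else 0

theorem class_sum (P : Fin k → Prop) [DecidablePred P] (e : Fin k → Fin u) :
    ∑ c : Fin u, ((univ.filter fun i : Fin k => P i ∧ e i = c).card : ℝ) =
      ((univ.filter fun i : Fin k => P i).card : ℝ) := by
  have h := Finset.card_eq_sum_card_fiberwise (f := e) (s := univ.filter fun i : Fin k => P i)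
    (t := univ) (fun _ _ => by simp)
  rw [h]
  push_cast
  refine sum_congr rfl fun c _ => ?_
  rw [Finset.filter_filter]

theorem rho_bound (A : Alg k S W) (e : Fin k → Fin u) {D0 : ℝ} (hW : 1 ≤ W) (x : XX S W) :
    ∑ α, ∑ y, |C A e α x y| ≤ W * lam A D0 x := by
  have hW0 : (0 : ℝ) < W := by exact_mod_cast hW
  rcases x with p | p'
  · have h1 : ∀ α : Fin k × Fin u, ∑ y, |C A e α (Sum.inl p) y| ≤
        W * ((univ.filter fun i : Fin k => A.a i α.1 = p.1 ∧ e i = α.2).card : ℝ) := by
      intro α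
      rw [Fintype.sum_sum_type]
      simp only [C, abs_zero, sum_const_zero, zero_add]
      exact row_left A e α p
    refine (sum_le_sum fun α _ => h1 α).trans ?_
    rw [← mul_sum]
    refine mul_le_mul_of_nonneg_left ?_ hW0.le
    rw [Fintype.sum_prod_type]
    refine le_trans (le_of_eq (sum_congr rfl fun j _ =>
      class_sum (fun i => A.a i j = p.1) e)) ?_
    change dA A p.1 ≤ max (dA A p.1) D0
    exact le_max_left _ _
  · have h1 : ∀ α : Fin k × Fin u, ∑ y, |C A e α (Sum.inr p') y| ≤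
        ∑ v : Fin W, ((univ.filter fun i : Fin k => A.b i α.1 v = p'.1 ∧ e i = α.2).card : ℝ) := by
      intro α
      rw [Fintype.sum_sum_type]
      simp only [C, abs_zero, sum_const_zero, add_zero]
      exact row_right A e α p'
    refine (sum_le_sum fun α _ => h1 α).trans ?_
    rw [Fintype.sum_prod_type]
    have h2 : ∀ j : Fin k, ∑ c : Fin u, ∑ v : Fin W,
        ((univ.filter fun i : Fin k => A.b i j v = p'.1 ∧ e i = c).card : ℝ) =
        ∑ v : Fin W, ((univ.filter fun i : Fin k => A.b i j v = p'.1).card : ℝ) := by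
      intro j
      rw [sum_comm]
      exact sum_congr rfl fun v _ => class_sum (fun i => A.b i j v = p'.1) e
    have h3 : dB A p'.1 = W * (dB A p'.1 / W) := by
      rw [mul_div_cancel₀ _ hW0.ne']
    have h4 : dB A p'.1 / W ≤ lam A D0 (Sum.inr p') := by
      change dB A p'.1 / W ≤ max (dB A p'.1 / W) D0
      exact le_max_left _ _
    refine le_trans (le_of_eq (sum_congr rfl fun j _ => h2 j)) ?_
    change dB A p'.1 ≤ _
    rw [h3]
    exact mul_le_mul_of_nonneg_left h4 hW0.le

theorem kappa_bound (A : Alg k S W) {m : ℕ} (e : Fin k → Fin u) (hg : Good A u m e) {D0 : ℝ}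
    (hD : 0 < D0) (hW : 1 ≤ W) (hu : 1 ≤ u) (x : XX S W) (α : Fin k × Fin u) :
    ∑ y, |C A e α x y| ≤ (W * (2 / u + m / D0)) * lam A D0 x := by
  have hW0 : (0 : ℝ) < W := by exact_mod_cast hW
  have hu0 : (0 : ℝ) < u := by exact_mod_cast hu
  have hmD : ∀ t : ℝ, D0 ≤ t → (m : ℝ) ≤ m / D0 * t := by
    intro t ht
    rw [div_mul_eq_mul_div, le_div_iff₀ hD]
    exact mul_le_mul_of_nonneg_left ht (by positivity)
  rcases x with p | p'
  · have h1 : ∑ y, |C A e α (Sum.inl p) y| ≤
        W * ((univ.filter fun i : Fin k => A.a i α.1 = p.1 ∧ e i = α.2).card : ℝ) := by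
      rw [Fintype.sum_sum_type]
      simp only [C, abs_zero, sum_const_zero, zero_add]
      exact row_left A e α p
    refine h1.trans ?_
    have h2 := hg.1 p.1 α.1 α.2
    have h3 : ((univ.filter fun i : Fin k => A.a i α.1 = p.1).card : ℝ) ≤ dA A p.1 :=
      Finset.single_le_sum (f := fun j : Fin k =>
        ((univ.filter fun i : Fin k => A.a i j = p.1).card : ℝ)) (fun _ _ => by positivity)
        (mem_univ α.1)
    have h4 : dA A p.1 ≤ lam A D0 (Sum.inl p) := le_max_left _ _
    have h5 := hmD (lam A D0 (Sum.inl p)) (le_max_right _ _)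
    have h6 : 2 * ((univ.filter fun i : Fin k => A.a i α.1 = p.1).card : ℝ) / u ≤
        2 / u * lam A D0 (Sum.inl p) := by
      rw [div_mul_eq_mul_div]
      gcongr
      exact h3.trans h4
    calc _ ≤ W * (2 * ((univ.filter fun i : Fin k => A.a i α.1 = p.1).card : ℝ) / u + m) :=
          mul_le_mul_of_nonneg_left h2 hW0.le
      _ ≤ W * (2 / u * lam A D0 (Sum.inl p) + m / D0 * lam A D0 (Sum.inl p)) :=
          mul_le_mul_of_nonneg_left (add_le_add h6 h5) hW0.le
      _ = _ := by ring
  · have h1 : ∑ y, |C A e α (Sum.inr p') y| ≤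
        ∑ v : Fin W, ((univ.filter fun i : Fin k => A.b i α.1 v = p'.1 ∧ e i = α.2).card : ℝ) := by
      rw [Fintype.sum_sum_type]
      simp only [C, abs_zero, sum_const_zero, add_zero]
      exact row_right A e α p'
    refine h1.trans ?_
    have h2 : ∀ v : Fin W, ((univ.filter fun i : Fin k => A.b i α.1 v = p'.1 ∧ e i = α.2).card : ℝ) ≤
        2 * ((univ.filter fun i : Fin k => A.b i α.1 v = p'.1).card : ℝ) / u + m :=
      fun v => hg.2 p'.1 α.1 v α.2
    have h3 : ∑ v : Fin W, ((univ.filter fun i : Fin k => A.b i α.1 v = p'.1).card : ℝ) ≤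
        dB A p'.1 :=
      Finset.single_le_sum (f := fun j : Fin k => ∑ v : Fin W,
        ((univ.filter fun i : Fin k => A.b i j v = p'.1).card : ℝ)) (fun _ _ => by positivity)
        (mem_univ α.1)
    have h4 : dB A p'.1 / W ≤ lam A D0 (Sum.inr p') := le_max_left _ _
    rw [div_le_iff₀ hW0] at h4
    have h5 := hmD (lam A D0 (Sum.inr p')) (le_max_right _ _)
    calc _ ≤ ∑ v : Fin W, (2 * ((univ.filter fun i : Fin k => A.b i α.1 v = p'.1).card : ℝ) / u + m) :=
          sum_le_sum fun v _ => h2 v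
      _ = 2 / u * (∑ v : Fin W, ((univ.filter fun i : Fin k => A.b i α.1 v = p'.1).card : ℝ)) +
            W * m := by
          rw [sum_add_distrib, mul_sum]
          congr 1
          · exact sum_congr rfl fun v _ => by ring
          · simp
      _ ≤ 2 / u * (lam A D0 (Sum.inr p') * W) + W * (m / D0 * lam A D0 (Sum.inr p')) := by
          refine add_le_add (mul_le_mul_of_nonneg_left (h3.trans h4) (by positivity))
            (mul_le_mul_of_nonneg_left h5 hW0.le)
      _ = _ := by ring

theorem dA_nonneg (A : Alg k S W) (s : Fin S) : 0 ≤ dA A s :=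
  sum_nonneg fun _ _ => by positivity

theorem dB_nonneg (A : Alg k S W) (s : Fin S) : 0 ≤ dB A s :=
  sum_nonneg fun _ _ => sum_nonneg fun _ _ => by positivity

theorem norm_bound (A : Alg k S W) (c : Fin S → Fin W) {D0 : ℝ} (hD : 0 < D0) (hW : 1 ≤ W)
    (hS : S * D0 = (k : ℝ) ^ 2) :
    ∑ x, lam A D0 x * vec c x ^ 2 ≤ 4 * (k : ℝ) ^ 2 := by
  have hW0 : (0 : ℝ) < W := by exact_mod_cast hW
  rw [Fintype.sum_sum_type, Fintype.sum_prod_type, Fintype.sum_prod_type]
  have h1 : ∀ s : Fin S, ∑ v : Fin W, lam A D0 (Sum.inl (s, v)) * vec c (Sum.inl (s, v)) ^ 2 ≤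
      dA A s + D0 := by
    intro s
    simp only [lam, vec]
    rw [Finset.sum_eq_single (c s)]
    · simp only [if_true, one_pow, mul_one]
      exact max_le (by linarith) (by linarith [dA_nonneg A s])
    · intro b _ hb
      rw [if_neg (Ne.symm hb)]; ring
    · simp
  have h2 : ∀ s : Fin S, ∑ v : Fin W, lam A D0 (Sum.inr (s, v)) * vec c (Sum.inr (s, v)) ^ 2 ≤
      dB A s / W + D0 := by
    intro s
    simp only [lam, vec]
    rw [Finset.sum_eq_single (c s)]
    · simp only [if_true, one_pow, mul_one]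
      have : 0 ≤ dB A s / W := div_nonneg (dB_nonneg A s) hW0.le
      exact max_le (by linarith) (by linarith)
    · intro b _ hb
      rw [if_neg (Ne.symm hb)]; ring
    · simp
  calc _ ≤ ∑ s : Fin S, (dA A s + D0) + ∑ s : Fin S, (dB A s / W + D0) :=
        add_le_add (sum_le_sum fun s _ => h1 s) (sum_le_sum fun s _ => h2 s)
    _ = 4 * (k : ℝ) ^ 2 := by
        rw [sum_add_distrib, sum_add_distrib, sum_dA, ← sum_div, sum_dB]
        simp only [sum_const, card_univ, Fintype.card_fin, nsmul_eq_mul, hS]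
        field_simp
        ring

theorem form_eq (A : Alg k S W) (e : Fin k → Fin u) (c : Fin S → Fin W)
    (Y : Fin k × Fin u → Bool) :
    ∑ x, ∑ y, vec c x * (∑ α, sg (Y α) * C A e α x y) * vec c y =
      2 * ∑ i, ∑ j, sg (Y (j, e i)) * sg (A.run c i j) := by
  -- the block from the first to the second cells
  have hH : ∑ p : Fin S × Fin W, ∑ p' : Fin S × Fin W,
      vec c (Sum.inl p) * (∑ α, sg (Y α) * ent A e α p p') * vec c (Sum.inr p') =
      ∑ i, ∑ j, sg (Y (j, e i)) * sg (A.run c i j) := by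
    have h1 : ∀ p p' : Fin S × Fin W,
        vec c (Sum.inl p) * (∑ α, sg (Y α) * ent A e α p p') * vec c (Sum.inr p') =
        ∑ i : Fin k, ∑ j : Fin k, (if A.a i j = p.1 ∧ c p.1 = p.2 then
          (if A.b i j p.2 = p'.1 ∧ c p'.1 = p'.2 then sg (Y (j, e i)) * sg (A.g i j p.2 p'.2) else 0)
          else 0) := by
      intro p p'
      have h2 : ∑ α, sg (Y α) * ent A e α p p' = ∑ i : Fin k, ∑ j : Fin k,
          (if A.a i j = p.1 ∧ A.b i j p.2 = p'.1 then sg (Y (j, e i)) * sg (A.g i j p.2 p'.2)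
            else 0) := by
        unfold ent
        rw [Fintype.sum_prod_type]
        simp only [mul_sum]
        rw [sum_comm' (t' := univ) (s' := fun _ => univ) (by simp)]
        calc ∑ c' : Fin u, ∑ j : Fin k, ∑ i : Fin k, sg (Y (j, c')) *
              (if e i = c' ∧ A.a i j = p.1 ∧ A.b i j p.2 = p'.1 then sg (A.g i j p.2 p'.2) else 0)
            = ∑ j : Fin k, ∑ i : Fin k, ∑ c' : Fin u, sg (Y (j, c')) *
              (if e i = c' ∧ A.a i j = p.1 ∧ A.b i j p.2 = p'.1 then sg (A.g i j p.2 p'.2) else 0) := by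
              rw [sum_comm]
              refine sum_congr rfl fun j _ => ?_
              rw [sum_comm]
          _ = ∑ j : Fin k, ∑ i : Fin k,
              (if A.a i j = p.1 ∧ A.b i j p.2 = p'.1 then sg (Y (j, e i)) * sg (A.g i j p.2 p'.2)
                else 0) := by
              refine sum_congr rfl fun j _ => sum_congr rfl fun i _ => ?_
              rw [Finset.sum_eq_single (e i)]
              · by_cases h3 : A.a i j = p.1 ∧ A.b i j p.2 = p'.1
                · rw [if_pos ⟨rfl, h3⟩, if_pos h3]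
                · rw [if_neg (fun h => h3 h.2), if_neg h3, mul_zero]
              · intro b _ hb
                rw [if_neg (fun h => hb h.1.symm), mul_zero]
              · simp
          _ = _ := sum_comm
      rw [h2, mul_sum, sum_mul]
      refine sum_congr rfl fun i _ => ?_
      rw [mul_sum, sum_mul]
      refine sum_congr rfl fun j _ => ?_
      simp only [vec]
      by_cases ha : A.a i j = p.1 <;> by_cases hc : c p.1 = p.2 <;>
        by_cases hb : A.b i j p.2 = p'.1 <;> by_cases hc' : c p'.1 = p'.2 <;> simp [ha, hc, hb, hc']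
    simp only [h1]
    -- exchange the sums
    have h4 : ∀ p : Fin S × Fin W, ∑ p' : Fin S × Fin W, ∑ i : Fin k, ∑ j : Fin k,
        (if A.a i j = p.1 ∧ c p.1 = p.2 then
          (if A.b i j p.2 = p'.1 ∧ c p'.1 = p'.2 then sg (Y (j, e i)) * sg (A.g i j p.2 p'.2) else 0)
          else 0) = ∑ i : Fin k, ∑ j : Fin k, (if A.a i j = p.1 ∧ c p.1 = p.2 then
          sg (Y (j, e i)) * sg (A.g i j p.2 (c (A.b i j p.2))) else 0) := by
      intro p
      rw [sum_comm]
      refine sum_congr rfl fun i _ => ?_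
      rw [sum_comm]
      refine sum_congr rfl fun j _ => ?_
      by_cases hh : A.a i j = p.1 ∧ c p.1 = p.2
      · simp only [if_pos hh]
        rw [Finset.sum_eq_single (A.b i j p.2, c (A.b i j p.2))]
        · simp
        · rintro ⟨s', v'⟩ _ hne
          refine if_neg fun h => hne ?_
          obtain ⟨h5, h6⟩ := h
          simp only at h5 h6
          subst h5
          rw [h6]
        · simp
      · simp only [if_neg hh, sum_const_zero]
    simp only [h4]
    rw [sum_comm]
    refine sum_congr rfl fun i _ => ?_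
    rw [sum_comm]
    refine sum_congr rfl fun j _ => ?_
    rw [Finset.sum_eq_single (A.a i j, c (A.a i j))]
    · simp [Alg.run]
    · rintro ⟨s, v⟩ _ hne
      refine if_neg fun h => hne ?_
      obtain ⟨h5, h6⟩ := h
      simp only at h5 h6
      subst h5
      rw [h6]
    · simp
  rw [Fintype.sum_sum_type]
  have h7 : ∀ p : Fin S × Fin W, ∑ y, vec c (Sum.inl p) *
      (∑ α, sg (Y α) * C A e α (Sum.inl p) y) * vec c y =
      ∑ p' : Fin S × Fin W,
        vec c (Sum.inl p) * (∑ α, sg (Y α) * ent A e α p p') * vec c (Sum.inr p') := by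
    intro p
    rw [Fintype.sum_sum_type]
    simp [C]
  have h8 : ∀ p' : Fin S × Fin W, ∑ y, vec c (Sum.inr p') *
      (∑ α, sg (Y α) * C A e α (Sum.inr p') y) * vec c y =
      ∑ p : Fin S × Fin W,
        vec c (Sum.inl p) * (∑ α, sg (Y α) * ent A e α p p') * vec c (Sum.inr p') := by
    intro p'
    rw [Fintype.sum_sum_type]
    simp only [C, mul_zero, sum_const_zero, zero_mul, add_zero]
    exact sum_congr rfl fun p _ => by ring
  simp only [h7, h8]
  rw [sum_comm (f := fun (p' : Fin S × Fin W) (p : Fin S × Fin W) =>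
    vec c (Sum.inl p) * (∑ α, sg (Y α) * ent A e α p p') * vec c (Sum.inr p')), hH]
  ring

end CoreEst

open CoreEst in
theorem core (hmom : S_MOM) : S_CORE := by
  intro k S W u m r A e δ hg hk hS hW hu hku hSW hδ hδ1 hr c hadv
  have hk0 : (0 : ℝ) < k := by exact_mod_cast hk
  have hS0 : (0 : ℝ) < S := by exact_mod_cast hS
  have hW0 : (0 : ℝ) < W := by exact_mod_cast hW
  have hu0 : (0 : ℝ) < u := by exact_mod_cast hu
  have hW1 : (1 : ℝ) ≤ W := by exact_mod_cast hW
  set D0 : ℝ := (k : ℝ) ^ 2 / S with hD0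
  have hDpos : 0 < D0 := by positivity
  have hSD : S * D0 = (k : ℝ) ^ 2 := by rw [hD0]; field_simp
  set κ : ℝ := W * (2 / u + m / D0) with hκ
  have hκ0 : 0 < κ := by positivity
  have hDu : D0 ≤ u := by
    rw [hD0, div_le_iff₀ hS0]
    exact_mod_cast hku
  have hκle : κ ≤ W * (2 + m) * S / (k : ℝ) ^ 2 := by
    have h1 : (2 : ℝ) / u ≤ 2 / D0 := by gcongr
    have h2 : κ ≤ W * (2 / D0 + m / D0) := by
      rw [hκ]; gcongr
    refine h2.trans (le_of_eq ?_)
    rw [hD0]; field_simp
  by_cases hcase : 2 ^ r * κ ≤ (W : ℝ)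
  · have hM := hmom (XX S W) (Fin k × Fin u) (C A e) (lam A D0) W κ (4 * (k : ℝ) ^ 2) (δ / 2) r
      (fun Y => vec (c (Function.curry Y))) (C_symm A e)
      (fun x => by
        rcases x with p | p
        · exact lt_of_lt_of_le hDpos (le_max_right _ _)
        · exact lt_of_lt_of_le hDpos (le_max_right _ _))
      hκ0 (by positivity) (by positivity) hr (rho_bound A e hW)
      (kappa_bound A e hg hDpos hW hu) hcase
      (by
        have : Fintype.card (XX S W) = 2 * S * W := by
          simp [XX, two_mul, add_mul]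
        rw [this]; exact hSW)
      (fun Y => norm_bound A _ hDpos hW hSD)
      (by
        have hcard : Fintype.card (Fin k × Fin u) = k * u := by simp
        rw [hcard]
        simp only [form_eq]
        rw [← mul_sum]
        have h3 : ∑ Y : Fin k × Fin u → Bool, ∑ i, ∑ j,
            sg (Y (j, e i)) * sg (A.run (c (Function.curry Y)) i j) =
            ∑ Y : Fin k → Fin u → Bool, ∑ i, ∑ j, sg (Y j (e i)) * sg (A.run (c Y) i j) :=
          (Equiv.curry (Fin k) (Fin u) Bool).sum_comp
            (fun Y : Fin k → Fin u → Bool => ∑ i, ∑ j, sg (Y j (e i)) * sg (A.run (c Y) i j))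
        have h3' : δ / 2 * (4 * (k : ℝ) ^ 2) * 2 ^ (k * u) ≤
            2 * ∑ Y : Fin k × Fin u → Bool, ∑ i, ∑ j,
            sg (Y (j, e i)) * sg (A.run (c (Function.curry Y)) i j) := by
          rw [h3]
          calc δ / 2 * (4 * (k : ℝ) ^ 2) * 2 ^ (k * u) = 2 * (δ * (k : ℝ) ^ 2 * 2 ^ (k * u)) := by
                ring
            _ ≤ _ := mul_le_mul_of_nonneg_left hadv (by norm_num)
        refine h3'.trans (le_of_eq ?_)
        congr 1
        refine Finset.sum_congr ?_ fun _ _ => rfl
        ext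
        simp)
    have h4 : (δ / 2) ^ 2 ≤ 16 * W * (W * (2 + m) * S / (k : ℝ) ^ 2) * 2 ^ r :=
      hM.trans (by gcongr)
    have h5 : 16 * (W : ℝ) * (W * (2 + m) * S / (k : ℝ) ^ 2) * 2 ^ r =
        (16 * (W : ℝ) ^ 2 * (2 + m) * 2 ^ r * S) / (k : ℝ) ^ 2 := by
      field_simp
    rw [h5, le_div_iff₀ (by positivity)] at h4
    nlinarith
  · push Not at hcase
    have h6 : (W : ℝ) < 2 ^ r * (W * (2 + m) * S / (k : ℝ) ^ 2) :=
      lt_of_lt_of_le hcase (by gcongr)
    have h7 : 2 ^ r * ((W : ℝ) * (2 + m) * S / (k : ℝ) ^ 2) =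
        (2 ^ r * (W * (2 + m) * S)) / (k : ℝ) ^ 2 := by ring
    rw [h7, lt_div_iff₀ (by positivity)] at h6
    have h8 : (k : ℝ) ^ 2 ≤ (2 + m) * 2 ^ r * S := by
      have : (W : ℝ) * (k : ℝ) ^ 2 < W * ((2 + m) * 2 ^ r * S) := by linarith
      exact (lt_of_mul_lt_mul_left this hW0.le).le
    have h9 : δ ^ 2 ≤ 1 := by nlinarith
    have h10 : (1 : ℝ) ≤ 64 * (W : ℝ) ^ 2 := by nlinarith
    calc δ ^ 2 * (k : ℝ) ^ 2 ≤ 1 * (k : ℝ) ^ 2 := by gcongr
      _ = (k : ℝ) ^ 2 := one_mul _
      _ ≤ (2 + m) * 2 ^ r * S := h8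
      _ = 1 * ((2 + m) * 2 ^ r * S) := (one_mul _).symm
      _ ≤ 64 * (W : ℝ) ^ 2 * ((2 + m) * 2 ^ r * S) := by gcongr
      _ = _ := by ring

end Pool.Agent.R563.TP
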