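import Pool.Agent.R563.TP.Stm

/-!
# Piece GOOD: most `e` are good
-/

set_option autoImplicit false

namespace Pool.Agent.R563.TP

open Finset
open scoped Classical

/-- the moment -/
theorem good_sum {k u : ℕ} (I : Finset (Fin k)) (c : Fin u) :
    ∑ e : Fin k → Fin u, (2 : ℝ) ^ (I.filter fun i => e i = c).card =
      ((u : ℝ) + 1) ^ I.card * (u : ℝ) ^ (k - I.card) := by
  have h1 : ∀ e : Fin k → Fin u, (2 : ℝ) ^ (I.filter fun i => e i = c).card =
      ∏ i : Fin k, if i ∈ I ∧ e i = c then (2 : ℝ) else 1 := by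
    intro e
    rw [Finset.prod_ite, Finset.prod_const, Finset.prod_const_one, mul_one]
    congr 2
    ext i
    simp
  rw [Finset.sum_congr rfl fun e _ => h1 e]
  have h2 : ∑ e : Fin k → Fin u, ∏ i : Fin k, (if i ∈ I ∧ e i = c then (2 : ℝ) else 1) =
      ∏ i : Fin k, ∑ a : Fin u, (if i ∈ I ∧ a = c then (2 : ℝ) else 1) := by
    rw [Finset.prod_univ_sum, Fintype.piFinset_univ]
  rw [h2]
  have h3 : ∀ i : Fin k, ∑ a : Fin u, (if i ∈ I ∧ a = c then (2 : ℝ) else 1) =
      if i ∈ I then (u : ℝ) + 1 else u := by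
    intro i
    by_cases hi : i ∈ I
    · simp only [hi, true_and, if_true]
      have h4 : ∀ a : Fin u, (if a = c then (2 : ℝ) else 1) = 1 + if a = c then 1 else 0 := by
        intro a
        split_ifs <;> norm_num
      rw [Finset.sum_congr rfl fun a _ => h4 a, Finset.sum_add_distrib]
      simp
    · simp [hi]
  rw [Finset.prod_congr rfl fun i _ => h3 i, Finset.prod_ite, Finset.prod_const, Finset.prod_const]
  congr 2
  · congr 1
    ext i
    simp
  · have h5 : (univ.filter fun i : Fin k => i ∉ I) = Iᶜ := by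
      ext i
      simp
    rw [h5, Finset.card_compl, Fintype.card_fin]

/-- one set of queries -/
theorem good_one {k u : ℕ} (hu : 1 ≤ u) (m : ℕ) (I : Finset (Fin k)) (c : Fin u) :
    (2 : ℝ) ^ m * ((univ.filter fun e : Fin k → Fin u =>
      ¬ (((I.filter fun i => e i = c).card : ℝ) ≤ 2 * (I.card : ℝ) / u + m)).card : ℝ) ≤
      (u : ℝ) ^ k := by
  have hu' : (0 : ℝ) < u := by exact_mod_cast hu
  have hI : I.card ≤ k := by
    have := Finset.card_le_univ I
    simpa using this
  -- Markov
  have h1 : ((univ.filter fun e : Fin k → Fin u =>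
      ¬ (((I.filter fun i => e i = c).card : ℝ) ≤ 2 * (I.card : ℝ) / u + m)).card : ℝ) *
      (2 : ℝ) ^ (2 * (I.card : ℝ) / u + m) ≤ ((u : ℝ) + 1) ^ I.card * (u : ℝ) ^ (k - I.card) := by
    rw [← good_sum I c, ← nsmul_eq_mul, ← Finset.sum_const]
    refine le_trans (Finset.sum_le_sum ?_) (Finset.sum_le_univ_sum_of_nonneg
      (f := fun e : Fin k → Fin u => (2 : ℝ) ^ (I.filter fun i => e i = c).card) ?_)
    · intro e he
      rw [Finset.mem_filter] at he
      have h2 := not_le.1 he.2
      rw [← Real.rpow_natCast]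
      exact Real.rpow_le_rpow_of_exponent_le (by norm_num) h2.le
    · intro e
      positivity
  -- (1 + 1/u)^|I| ≤ 2^(2|I|/u)
  have h2 : ((u : ℝ) + 1) ^ I.card ≤ (u : ℝ) ^ I.card * (2 : ℝ) ^ (2 * (I.card : ℝ) / u) := by
    have h3 : (u : ℝ) + 1 = u * (1 + 1 / u) := by
      field_simp
    rw [h3, mul_pow]
    apply mul_le_mul_of_nonneg_left _ (by positivity)
    have h4 : (1 : ℝ) + 1 / u ≤ Real.exp (1 / u) := by
      have := Real.add_one_le_exp (1 / (u : ℝ))
      linarith
    calc ((1 : ℝ) + 1 / u) ^ I.card ≤ Real.exp (1 / u) ^ I.card :=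
          pow_le_pow_left₀ (by positivity) h4 _
      _ = Real.exp (I.card / u) := by
          rw [← Real.exp_nat_mul]
          congr 1
          ring
      _ ≤ (2 : ℝ) ^ (2 * (I.card : ℝ) / u) := by
          rw [Real.rpow_def_of_pos (by norm_num)]
          apply Real.exp_le_exp.2
          have h5 : (1 / 2 : ℝ) < Real.log 2 := by
            have := Real.log_two_gt_d9
            linarith
          have h6 : (0 : ℝ) ≤ (I.card : ℝ) / u := by positivity
          have h7 : Real.log 2 * (2 * (I.card : ℝ) / u) = (I.card : ℝ) / u * (2 * Real.log 2) := by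
            ring
          rw [h7]
          nlinarith
  have h3 : ((u : ℝ) + 1) ^ I.card * (u : ℝ) ^ (k - I.card) ≤
      (u : ℝ) ^ k * (2 : ℝ) ^ (2 * (I.card : ℝ) / u) := by
    have h4 : (u : ℝ) ^ k = (u : ℝ) ^ I.card * (u : ℝ) ^ (k - I.card) := by
      rw [← pow_add]
      congr 1
      omega
    rw [h4]
    have h5 := mul_le_mul_of_nonneg_right h2 (by positivity : (0 : ℝ) ≤ (u : ℝ) ^ (k - I.card))
    calc _ ≤ _ := h5
      _ = _ := by ring
  have h4 := h1.trans h3
  rw [Real.rpow_add (by norm_num), Real.rpow_natCast] at h4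
  have h5 : (0 : ℝ) < (2 : ℝ) ^ (2 * (I.card : ℝ) / u) := by positivity
  refine le_of_mul_le_mul_right ?_ h5
  calc _ = _ := by ring
    _ ≤ _ := h4

/-- **Piece GOOD** -/
theorem good : S_GOOD := by
  intro k S W u m A hu
  have hu' : (0 : ℝ) < u := by exact_mod_cast hu
  -- the bad events
  obtain ⟨P, hP⟩ : ∃ P : Finset (Fin k) → Fin u → Finset (Fin k → Fin u), P = fun I c =>
    univ.filter fun e : Fin k → Fin u =>
      ¬ (((I.filter fun i => e i = c).card : ℝ) ≤ 2 * (I.card : ℝ) / u + m) := ⟨_, rfl⟩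
  have hP1 : ∀ I c, (2 : ℝ) ^ m * ((P I c).card : ℝ) ≤ (u : ℝ) ^ k := by
    intro I c
    rw [hP]
    exact good_one hu m I c
  have hsub : (univ.filter fun e : Fin k → Fin u => ¬ Good A u m e) ⊆
      (univ : Finset ((Fin k × Fin k) × Fin u)).biUnion
        (fun x => P (univ.filter fun i => A.a i x.1.2 = A.a x.1.1 x.1.2) x.2) ∪
      (univ : Finset (((Fin k × Fin k) × Fin W) × Fin u)).biUnion
        (fun x => P (univ.filter fun i => A.b i x.1.1.2 x.1.2 = A.b x.1.1.1 x.1.1.2 x.1.2) x.2) := by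
    intro e he
    rw [Finset.mem_filter] at he
    have h1 := he.2
    unfold Good at h1
    rw [not_and_or] at h1
    rw [Finset.mem_union]
    rcases h1 with h1 | h1
    · left
      push Not at h1
      obtain ⟨s, j, c, h2⟩ := h1
      have h3 : (univ.filter fun i : Fin k => A.a i j = s ∧ e i = c).Nonempty := by
        rw [← Finset.card_pos]
        by_contra h4
        have h5 : (univ.filter fun i : Fin k => A.a i j = s ∧ e i = c).card = 0 := by omega
        rw [h5] at h2
        have h6 : (0 : ℝ) ≤ 2 * ((univ.filter fun i : Fin k => A.a i j = s).card : ℝ) / u + m := by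
          positivity
        simp only [Nat.cast_zero] at h2
        linarith
      obtain ⟨i0, hi0⟩ := h3
      rw [Finset.mem_filter] at hi0
      obtain ⟨-, hi1, hi2⟩ := hi0
      rw [Finset.mem_biUnion]
      refine ⟨((i0, j), c), Finset.mem_univ _, ?_⟩
      rw [hP, Finset.mem_filter]
      refine ⟨Finset.mem_univ _, ?_⟩
      rw [Finset.filter_filter, not_le]
      simp only [hi1]
      exact h2
    · right
      push Not at h1
      obtain ⟨s, j, v, c, h2⟩ := h1
      have h3 : (univ.filter fun i : Fin k => A.b i j v = s ∧ e i = c).Nonempty := by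
        rw [← Finset.card_pos]
        by_contra h4
        have h5 : (univ.filter fun i : Fin k => A.b i j v = s ∧ e i = c).card = 0 := by omega
        rw [h5] at h2
        have h6 : (0 : ℝ) ≤ 2 * ((univ.filter fun i : Fin k => A.b i j v = s).card : ℝ) / u + m := by
          positivity
        simp only [Nat.cast_zero] at h2
        linarith
      obtain ⟨i0, hi0⟩ := h3
      rw [Finset.mem_filter] at hi0
      obtain ⟨-, hi1, hi2⟩ := hi0
      rw [Finset.mem_biUnion]
      refine ⟨(((i0, j), v), c), Finset.mem_univ _, ?_⟩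
      rw [hP, Finset.mem_filter]
      refine ⟨Finset.mem_univ _, ?_⟩
      rw [Finset.filter_filter, not_le]
      simp only [hi1]
      exact h2
  have hcard : ((univ.filter fun e : Fin k → Fin u => ¬ Good A u m e).card : ℝ) ≤
      ∑ x : (Fin k × Fin k) × Fin u,
        ((P (univ.filter fun i => A.a i x.1.2 = A.a x.1.1 x.1.2) x.2).card : ℝ) +
      ∑ x : ((Fin k × Fin k) × Fin W) × Fin u,
        ((P (univ.filter fun i => A.b i x.1.1.2 x.1.2 = A.b x.1.1.1 x.1.1.2 x.1.2) x.2).card : ℝ) := by
    have h1 := (Finset.card_le_card hsub).trans (Finset.card_union_le _ _)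
    have h2 := h1.trans (add_le_add Finset.card_biUnion_le Finset.card_biUnion_le)
    exact_mod_cast h2
  have h1 := mul_le_mul_of_nonneg_left hcard (by positivity : (0 : ℝ) ≤ 2 ^ m)
  refine h1.trans ?_
  rw [mul_add, Finset.mul_sum, Finset.mul_sum]
  have h2 : ∑ x : (Fin k × Fin k) × Fin u,
      (2 : ℝ) ^ m * ((P (univ.filter fun i => A.a i x.1.2 = A.a x.1.1 x.1.2) x.2).card : ℝ) ≤
      ∑ _x : (Fin k × Fin k) × Fin u, (u : ℝ) ^ k := Finset.sum_le_sum fun x _ => hP1 _ _
  have h3 : ∑ x : ((Fin k × Fin k) × Fin W) × Fin u, (2 : ℝ) ^ m *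
      ((P (univ.filter fun i => A.b i x.1.1.2 x.1.2 = A.b x.1.1.1 x.1.1.2 x.1.2) x.2).card : ℝ) ≤
      ∑ _x : ((Fin k × Fin k) × Fin W) × Fin u, (u : ℝ) ^ k :=
    Finset.sum_le_sum fun x _ => hP1 _ _
  refine (add_le_add h2 h3).trans (le_of_eq ?_)
  simp only [Finset.sum_const, Finset.card_univ, Fintype.card_prod, Fintype.card_fin,
    nsmul_eq_mul, Nat.cast_mul]
  ring

end Pool.Agent.R563.TP
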