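import Pool.Agent.R563.TP.Stm

set_option autoImplicit false

/-!
# The moment lemma
-/

namespace Pool.Agent.R563.TP

open Finset
open scoped Classical

namespace Mom

variable {X : Type} [Fintype X]

/-- powers of a self-adjoint matrix are self-adjoint -/
theorem sym_pow {T : Matrix X X ℝ} {l : X → ℝ} (h : ∀ x y, l x * T x y = l y * T y x) (m : ℕ)
    (x y : X) : l x * (T ^ m) x y = l y * (T ^ m) y x := by
  induction m generalizing x y with
  | zero =>
    by_cases hxy : x = y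
    · subst hxy; rfl
    · simp [Matrix.one_apply_ne hxy, Matrix.one_apply_ne (Ne.symm hxy)]
  | succ m ih =>
    rw [pow_succ, Matrix.mul_apply, ← pow_succ, pow_succ', Matrix.mul_apply, mul_sum, mul_sum]
    refine sum_congr rfl fun z _ => ?_
    have h1 := ih x z
    have h2 := h z y
    calc l x * ((T ^ m) x z * T z y) = (l x * (T ^ m) x z) * T z y := by ring
      _ = (l z * (T ^ m) z x) * T z y := by rw [h1]
      _ = (T ^ m) z x * (l z * T z y) := by ring
      _ = (T ^ m) z x * (l y * T y z) := by rw [h2]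
      _ = l y * (T y z * (T ^ m) z x) := by ring

/-- the quadratic form of `T ^ m` -/
noncomputable def q (T : Matrix X X ℝ) (l f : X → ℝ) (m : ℕ) : ℝ :=
  ∑ x, l x * f x * (T ^ m).mulVec f x

theorem q_two {T : Matrix X X ℝ} {l : X → ℝ} (h : ∀ x y, l x * T x y = l y * T y x) (f : X → ℝ)
    (m : ℕ) : q T l f (2 * m) = ∑ x, l x * ((T ^ m).mulVec f x) ^ 2 := by
  unfold q
  have h1 : T ^ (2 * m) = T ^ m * T ^ m := by rw [two_mul, pow_add]
  rw [h1]
  have h2 : ∀ x, ((T ^ m * T ^ m).mulVec f) x = ∑ y, (T ^ m) x y * ((T ^ m).mulVec f y) := by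
    intro x
    rw [← Matrix.mulVec_mulVec]
    rfl
  calc ∑ x, l x * f x * ((T ^ m * T ^ m).mulVec f) x
      = ∑ x, ∑ y, (l x * (T ^ m) x y) * f x * ((T ^ m).mulVec f y) := by
        refine sum_congr rfl fun x _ => ?_
        rw [h2, mul_sum]
        exact sum_congr rfl fun y _ => by ring
    _ = ∑ x, ∑ y, (l y * (T ^ m) y x) * f x * ((T ^ m).mulVec f y) := by
        refine sum_congr rfl fun x _ => sum_congr rfl fun y _ => ?_
        rw [sym_pow h m x y]
    _ = ∑ y, ∑ x, (l y * (T ^ m) y x) * f x * ((T ^ m).mulVec f y) := sum_comm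
    _ = ∑ y, l y * ((T ^ m).mulVec f y) ^ 2 := by
        refine sum_congr rfl fun y _ => ?_
        have h3 : (T ^ m).mulVec f y = ∑ x, (T ^ m) y x * f x := rfl
        calc ∑ x, (l y * (T ^ m) y x) * f x * ((T ^ m).mulVec f y)
            = (l y * ((T ^ m).mulVec f y)) * ∑ x, (T ^ m) y x * f x := by
              rw [mul_sum]
              exact sum_congr rfl fun x _ => by ring
          _ = l y * ((T ^ m).mulVec f y) ^ 2 := by rw [← h3]; ring

theorem q_sq {T : Matrix X X ℝ} {l : X → ℝ} (h : ∀ x y, l x * T x y = l y * T y x)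
    (hl : ∀ x, 0 < l x) (f : X → ℝ) {M : ℝ} (hM : ∑ x, l x * f x ^ 2 ≤ M) (m : ℕ) :
    (q T l f m) ^ 2 ≤ M * q T l f (2 * m) := by
  rw [q_two h]
  have h0 : 0 ≤ ∑ x, l x * ((T ^ m).mulVec f x) ^ 2 :=
    sum_nonneg fun x _ => mul_nonneg (hl x).le (sq_nonneg _)
  refine le_trans ?_ (mul_le_mul_of_nonneg_right hM h0)
  have h1 := Finset.sum_mul_sq_le_sq_mul_sq (univ : Finset X) (fun x => √(l x) * f x)
    (fun x => √(l x) * (T ^ m).mulVec f x)
  have h2 : ∀ x, √(l x) * f x * (√(l x) * (T ^ m).mulVec f x) = l x * f x * (T ^ m).mulVec f x := by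
    intro x
    calc _ = (√(l x) * √(l x)) * f x * (T ^ m).mulVec f x := by ring
      _ = _ := by rw [Real.mul_self_sqrt (hl x).le]
  have h3 : ∀ (g : X → ℝ) x, (√(l x) * g x) ^ 2 = l x * g x ^ 2 := by
    intro g x
    rw [mul_pow, Real.sq_sqrt (hl x).le]
  simp only [h2, h3] at h1
  exact h1

theorem q_trace {T : Matrix X X ℝ} {l : X → ℝ} (h : ∀ x y, l x * T x y = l y * T y x)
    (hl : ∀ x, 0 < l x) (f : X → ℝ) {M : ℝ} (hM : ∑ x, l x * f x ^ 2 ≤ M) (m : ℕ) :
    q T l f (2 * m) ≤ M * (T ^ (2 * m)).trace := by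
  have htr : (T ^ (2 * m)).trace = ∑ x, ∑ y, l x * ((T ^ m) x y) ^ 2 / l y := by
    rw [two_mul, pow_add, Matrix.trace]
    refine sum_congr rfl fun x _ => ?_
    rw [Matrix.diag_apply, Matrix.mul_apply]
    refine sum_congr rfl fun y _ => ?_
    have h1 := sym_pow h m x y
    have hy := hl y
    rw [eq_div_iff hy.ne']
    calc (T ^ m) x y * (T ^ m) y x * l y = (T ^ m) x y * (l y * (T ^ m) y x) := by ring
      _ = (T ^ m) x y * (l x * (T ^ m) x y) := by rw [h1]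
      _ = _ := by ring
  have h0 : 0 ≤ (T ^ (2 * m)).trace := by
    rw [htr]
    exact sum_nonneg fun x _ => sum_nonneg fun y _ =>
      div_nonneg (mul_nonneg (hl x).le (sq_nonneg _)) (hl y).le
  refine le_trans ?_ (mul_le_mul_of_nonneg_right hM h0)
  rw [q_two h, htr, mul_sum]
  refine sum_le_sum fun x _ => ?_
  have h1 := Finset.sum_mul_sq_le_sq_mul_sq (univ : Finset X) (fun y => (T ^ m) x y / √(l y))
    (fun y => √(l y) * f y)
  have h2 : ∀ y, (T ^ m) x y / √(l y) * (√(l y) * f y) = (T ^ m) x y * f y := by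
    intro y
    have : √(l y) ≠ 0 := (Real.sqrt_pos.2 (hl y)).ne'
    field_simp
  have h3 : ∀ y, (√(l y) * f y) ^ 2 = l y * f y ^ 2 := by
    intro y
    rw [mul_pow, Real.sq_sqrt (hl y).le]
  have h4 : ∀ y, ((T ^ m) x y / √(l y)) ^ 2 = ((T ^ m) x y) ^ 2 / l y := by
    intro y
    rw [div_pow, Real.sq_sqrt (hl y).le]
  simp only [h2, h3, h4] at h1
  have h5 : (T ^ m).mulVec f x = ∑ y, (T ^ m) x y * f y := rfl
  rw [h5]
  calc l x * (∑ y, (T ^ m) x y * f y) ^ 2
      ≤ l x * ((∑ y, ((T ^ m) x y) ^ 2 / l y) * ∑ y, l y * f y ^ 2) :=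
        mul_le_mul_of_nonneg_left h1 (hl x).le
    _ = (∑ y, l y * f y ^ 2) * ∑ y, l x * ((T ^ m) x y) ^ 2 / l y := by
        have : ∑ y, l x * ((T ^ m) x y) ^ 2 / l y = l x * ∑ y, ((T ^ m) x y) ^ 2 / l y := by
          rw [mul_sum]
          exact sum_congr rfl fun y _ => by ring
        rw [this]; ring

theorem q_pow {T : Matrix X X ℝ} {l : X → ℝ} (h : ∀ x y, l x * T x y = l y * T y x)
    (hl : ∀ x, 0 < l x) (f : X → ℝ) {M : ℝ} (hM0 : 0 < M) (hM : ∑ x, l x * f x ^ 2 ≤ M) (r : ℕ) :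
    (q T l f 1) ^ (2 ^ (r + 1)) ≤ M ^ (2 ^ (r + 1)) * (T ^ (2 ^ (r + 1))).trace := by
  have key : ∀ r : ℕ, M * (q T l f 1) ^ (2 ^ (r + 1)) ≤ M ^ (2 ^ (r + 1)) * q T l f (2 ^ (r + 1)) := by
    intro r
    induction r with
    | zero =>
      have := q_sq h hl f hM 1
      norm_num at this ⊢
      nlinarith
    | succ r ih =>
      have h1 := q_sq h hl f hM (2 ^ (r + 1))
      have h2 : 2 * 2 ^ (r + 1) = 2 ^ (r + 1 + 1) := by ring
      rw [h2] at h1
      have h3 : 0 ≤ M * (q T l f 1) ^ (2 ^ (r + 1)) := by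
        have : 0 ≤ (q T l f 1) ^ (2 ^ (r + 1)) := by
          apply Even.pow_nonneg
          exact ⟨2 ^ r, by ring⟩
        positivity
      have h4 : (M * (q T l f 1) ^ (2 ^ (r + 1))) ^ 2 ≤
          (M ^ (2 ^ (r + 1)) * q T l f (2 ^ (r + 1))) ^ 2 := by
        exact pow_le_pow_left₀ h3 ih 2
      have h5 : (M * (q T l f 1) ^ (2 ^ (r + 1))) ^ 2 =
          M * (M * (q T l f 1) ^ (2 ^ (r + 1 + 1))) := by
        have : (q T l f 1) ^ (2 ^ (r + 1 + 1)) = ((q T l f 1) ^ (2 ^ (r + 1))) ^ 2 := by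
          rw [← pow_mul]; congr 1
        rw [this]; ring
      have h6 : (M ^ (2 ^ (r + 1)) * q T l f (2 ^ (r + 1))) ^ 2 =
          M ^ (2 ^ (r + 1 + 1)) * (q T l f (2 ^ (r + 1))) ^ 2 := by
        have : M ^ (2 ^ (r + 1 + 1)) = (M ^ (2 ^ (r + 1))) ^ 2 := by
          rw [← pow_mul]; congr 1
        rw [this]; ring
      rw [h5, h6] at h4
      have h7 : M ^ (2 ^ (r + 1 + 1)) * (q T l f (2 ^ (r + 1))) ^ 2 ≤
          M ^ (2 ^ (r + 1 + 1)) * (M * q T l f (2 ^ (r + 1 + 1))) :=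
        mul_le_mul_of_nonneg_left h1 (by positivity)
      have h8 := h4.trans h7
      have h9 : M * (M * (q T l f 1) ^ (2 ^ (r + 1 + 1))) ≤
          M * (M ^ (2 ^ (r + 1 + 1)) * q T l f (2 ^ (r + 1 + 1))) := by
        calc _ ≤ _ := h8
          _ = _ := by ring
      exact le_of_mul_le_mul_left h9 hM0
  have h1 := key r
  have h2 : (2 : ℕ) ^ (r + 1) = 2 * 2 ^ r := by ring
  have h3 := q_trace h hl f hM (2 ^ r)
  rw [← h2] at h3
  have h4 : M ^ (2 ^ (r + 1)) * q T l f (2 ^ (r + 1)) ≤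
      M ^ (2 ^ (r + 1)) * (M * (T ^ (2 ^ (r + 1))).trace) :=
    mul_le_mul_of_nonneg_left h3 (by positivity)
  have h5 : M * (q T l f 1) ^ (2 ^ (r + 1)) ≤
      M * (M ^ (2 ^ (r + 1)) * (T ^ (2 ^ (r + 1))).trace) := by
    calc _ ≤ _ := h1.trans h4
      _ = _ := by ring
  exact le_of_mul_le_mul_left h5 hM0

end Mom

end Pool.Agent.R563.TP
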