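import Pool.Agent.R563.TP.Mom

set_option autoImplicit false

/-!
# The moment lemma: counting walks
-/

namespace Pool.Agent.R563.TP

open Finset
open scoped Classical

namespace Mom

variable {X ι : Type} [Fintype X] [Fintype ι]

/-- the product along a sequence of classes -/
noncomputable def wp (B : ι → Matrix X X ℝ) : (n : ℕ) → (Fin n → ι) → Matrix X X ℝ
  | 0, _ => 1
  | n + 1, s => B (s 0) * wp B n (fun t => s t.succ)

theorem pow_expand (B : ι → Matrix X X ℝ) (c : ι → ℝ) (n : ℕ) :
    (∑ α, c α • B α) ^ n = ∑ s : Fin n → ι, (∏ t, c (s t)) • wp B n s := by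
  induction n with
  | zero => simp [wp]
  | succ n ih =>
    rw [pow_succ', ih, ← (Fin.consEquiv fun _ : Fin (n + 1) => ι).sum_comp, Fintype.sum_prod_type,
      Finset.sum_mul]
    refine sum_congr rfl fun α _ => ?_
    rw [Finset.mul_sum]
    refine sum_congr rfl fun s _ => ?_
    simp only [Fin.consEquiv, Equiv.coe_fn_mk, wp, Fin.cons_zero, Fin.cons_succ,
      Fin.prod_univ_succ]
    rw [Matrix.smul_mul, Matrix.mul_smul, smul_smul]

theorem wp_abs (B D : ι → Matrix X X ℝ) (h : ∀ α x y, |B α x y| ≤ D α x y) (n : ℕ)
    (s : Fin n → ι) (x y : X) : |wp B n s x y| ≤ wp D n s x y := by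
  induction n generalizing x y with
  | zero =>
    simp only [wp]
    by_cases hxy : x = y
    · subst hxy; simp
    · simp [Matrix.one_apply_ne hxy]
  | succ n ih =>
    simp only [wp, Matrix.mul_apply]
    refine (abs_sum_le_sum_abs _ _).trans (sum_le_sum fun z _ => ?_)
    rw [abs_mul]
    exact mul_le_mul (h _ _ _) (ih _ _ _) (abs_nonneg _) ((abs_nonneg _).trans (h _ _ _))

theorem sg_sq (b : Bool) : sg b = 1 ∨ sg b = -1 := by
  unfold sg
  split_ifs <;> simp

theorem sg_not (b : Bool) : sg (!b) = - sg b := by
  cases b <;> simp [sg]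

theorem abs_sg (b : Bool) : |sg b| = 1 := by
  rcases sg_sq b with h | h <;> simp [h]

/-- the average of a product of signs -/
theorem sum_signs (n : ℕ) (s : Fin n → ι) :
    |∑ Y : ι → Bool, ∏ t, sg (Y (s t))| ≤
      if 2 * (univ.image s).card ≤ n then 2 ^ (Fintype.card ι) else 0 := by
  split_ifs with hn
  · refine (abs_sum_le_sum_abs _ _).trans ?_
    have : ∀ Y : ι → Bool, |∏ t, sg (Y (s t))| = 1 := by
      intro Y
      rw [Finset.abs_prod]
      exact Finset.prod_eq_one fun t _ => abs_sg _
    simp only [this]
    simp
  · -- some class occurs exactly once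
    have h1 : ∃ α ∈ univ.image s, (univ.filter fun t => s t = α).card < 2 := by
      by_contra hcon
      push Not at hcon
      have h2 : (univ : Finset (Fin n)).card = ∑ α ∈ univ.image s, (univ.filter fun t => s t = α).card :=
        Finset.card_eq_sum_card_image s univ
      have h3 : ∑ α ∈ univ.image s, 2 ≤ ∑ α ∈ univ.image s, (univ.filter fun t => s t = α).card :=
        sum_le_sum hcon
      simp only [sum_const, smul_eq_mul, card_univ, Fintype.card_fin] at h2 h3
      omega
    obtain ⟨α, hα, hc⟩ := h1
    obtain ⟨t0, -, ht0⟩ := Finset.mem_image.1 hα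
    have huniq : ∀ t, s t = α → t = t0 := by
      intro t ht
      have h4 : (univ.filter fun t => s t = α).card ≤ 1 := by omega
      exact Finset.card_le_one.1 h4 t (by simp [ht]) t0 (by simp [ht0])
    have hflip : ∀ Y : ι → Bool,
        ∏ t, sg (Function.update Y α (!Y α) (s t)) = - ∏ t, sg (Y (s t)) := by
      intro Y
      have h5 : ∀ t, sg (Function.update Y α (!Y α) (s t)) =
          (if t = t0 then -1 else 1) * sg (Y (s t)) := by
        intro t
        by_cases ht : s t = α
        · have := huniq t ht
          rw [if_pos this, ht, Function.update_self, sg_not]; ring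
        · have h6 : t ≠ t0 := fun h => ht (h ▸ ht0)
          rw [if_neg h6, Function.update_of_ne ht, one_mul]
      simp only [h5]
      rw [Finset.prod_mul_distrib, Finset.prod_ite_eq' univ t0 (fun _ => (-1 : ℝ))]
      simp
    have hinv : Function.Involutive fun Y : ι → Bool => Function.update Y α (!Y α) := by
      intro Y
      funext β
      by_cases hβ : β = α
      · subst hβ; simp
      · simp [Function.update_of_ne hβ]
    have h7 : ∑ Y : ι → Bool, ∏ t, sg (Y (s t)) =
        ∑ Y : ι → Bool, ∏ t, sg (Function.update Y α (!Y α) (s t)) :=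
      (Equiv.sum_comp hinv.toPerm fun Y : ι → Bool => ∏ t, sg (Y (s t))).symm
    simp only [hflip, sum_neg_distrib] at h7
    have h8 : ∑ Y : ι → Bool, ∏ t, sg (Y (s t)) = 0 := by linarith
    rw [h8, abs_zero]

/-- weighted count of the walks starting in `x` -/
theorem walk_count (D : ι → Matrix X X ℝ) (hD : ∀ α x y, 0 ≤ D α x y) {ρ κ z : ℝ} (hz : 0 ≤ z)
    (hκ : 0 ≤ κ) (h1 : ∀ x, ∑ α, ∑ y, D α x y ≤ ρ) (h2 : ∀ x α, ∑ y, D α x y ≤ κ) (N : ℕ)
    (hρ : 0 ≤ ρ) (n : ℕ) (T : Finset ι) (hT : T.card + n ≤ N) (x : X) :
    ∑ s : Fin n → ι, z ^ ((univ.image s) \ T).card * ∑ y, wp D n s x y ≤ (z * ρ + N * κ) ^ n := by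
  have hN : 0 ≤ z * ρ + N * κ := by positivity
  induction n generalizing T x with
  | zero =>
    simp [wp, Matrix.one_apply]
  | succ n ih =>
    rw [← (Fin.consEquiv fun _ : Fin (n + 1) => ι).sum_comp, Fintype.sum_prod_type]
    have him : ∀ (α : ι) (s : Fin n → ι),
        z ^ ((univ.image (Fin.cons α s : Fin (n + 1) → ι)) \ T).card =
          (if α ∈ T then 1 else z) * z ^ ((univ.image s) \ (insert α T)).card := by
      intro α s
      have himg : univ.image (Fin.cons α s : Fin (n + 1) → ι) = insert α (univ.image s) := by
        ext β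
        simp only [mem_image, mem_univ, true_and, mem_insert, Fin.exists_fin_succ, Fin.cons_zero,
          Fin.cons_succ]
        constructor
        · rintro (h | h)
          · exact Or.inl h.symm
          · exact Or.inr h
        · rintro (h | h)
          · exact Or.inl h.symm
          · exact Or.inr h
      rw [himg]
      by_cases hα : α ∈ T
      · rw [if_pos hα, one_mul, Finset.insert_sdiff_of_mem _ hα, Finset.insert_eq_of_mem hα]
      · rw [if_neg hα, Finset.insert_sdiff_of_notMem _ hα]
        have h3 : insert α (univ.image s \ T) = insert α (univ.image s \ insert α T) := by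
          ext β
          simp only [mem_insert, mem_sdiff]
          tauto
        rw [h3, card_insert_of_notMem (by simp), pow_succ]
        ring
    have hstep : ∀ α : ι, ∑ s : Fin n → ι,
        z ^ ((univ.image (Fin.cons α s : Fin (n + 1) → ι)) \ T).card *
          ∑ y, wp D (n + 1) (Fin.cons α s : Fin (n + 1) → ι) x y ≤
        (if α ∈ T then 1 else z) * ((∑ w, D α x w) * (z * ρ + N * κ) ^ n) := by
      intro α
      have h4 : ∀ s : Fin n → ι,
          z ^ ((univ.image (Fin.cons α s : Fin (n + 1) → ι)) \ T).card *
            ∑ y, wp D (n + 1) (Fin.cons α s : Fin (n + 1) → ι) x y =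
          (if α ∈ T then 1 else z) * ∑ w, D α x w *
            (z ^ ((univ.image s) \ (insert α T)).card * ∑ y, wp D n s w y) := by
        intro s
        rw [him]
        have h5 : ∑ y, wp D (n + 1) (Fin.cons α s : Fin (n + 1) → ι) x y =
            ∑ w, D α x w * ∑ y, wp D n s w y := by
          simp only [wp, Matrix.mul_apply, Fin.cons_zero, Fin.cons_succ]
          rw [sum_comm]
          exact sum_congr rfl fun w _ => by rw [mul_sum]
        rw [h5, mul_assoc, mul_sum]
        congr 1
        exact sum_congr rfl fun w _ => by ring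
      simp only [h4]
      rw [← mul_sum, sum_comm]
      refine mul_le_mul_of_nonneg_left ?_ (by split_ifs <;> [norm_num; exact hz])
      rw [sum_mul]
      refine sum_le_sum fun w _ => ?_
      rw [← mul_sum]
      refine mul_le_mul_of_nonneg_left ?_ (hD α x w)
      refine ih (insert α T) ?_ w
      have := card_insert_le α T
      omega
    calc _ ≤ ∑ α, (if α ∈ T then 1 else z) * ((∑ w, D α x w) * (z * ρ + N * κ) ^ n) :=
          sum_le_sum fun α _ => hstep α
      _ = (∑ α, (if α ∈ T then 1 else z) * ∑ w, D α x w) * (z * ρ + N * κ) ^ n := by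
          rw [sum_mul]
          exact sum_congr rfl fun α _ => by ring
      _ ≤ (z * ρ + N * κ) * (z * ρ + N * κ) ^ n := by
          refine mul_le_mul_of_nonneg_right ?_ (by positivity)
          have h6 : ∀ α : ι, (if α ∈ T then 1 else z) * ∑ w, D α x w ≤
              z * (∑ w, D α x w) + (if α ∈ T then κ else 0) := by
            intro α
            have h7 : 0 ≤ ∑ w, D α x w := sum_nonneg fun w _ => hD α x w
            split_ifs with hα
            · have := h2 x α
              nlinarith [mul_nonneg hz h7]
            · linarith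
          calc _ ≤ ∑ α, (z * (∑ w, D α x w) + (if α ∈ T then κ else 0)) :=
                sum_le_sum fun α _ => h6 α
            _ = z * (∑ α, ∑ w, D α x w) + T.card * κ := by
                rw [sum_add_distrib, ← mul_sum]
                congr 1
                rw [← Finset.sum_filter]
                simp
            _ ≤ z * ρ + N * κ := by
                have h8 := mul_le_mul_of_nonneg_left (h1 x) hz
                have h9 : (T.card : ℝ) ≤ N := by
                  exact_mod_cast (by omega : T.card ≤ N)
                have h10 := mul_le_mul_of_nonneg_right h9 hκ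
                linarith
      _ = (z * ρ + N * κ) ^ (n + 1) := by rw [pow_succ']

end Mom

end Pool.Agent.R563.TP
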