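import Pool.Agent.R563.TP.Mom2

set_option autoImplicit false

/-!
# The moment lemma
-/

namespace Pool.Agent.R563.TP

open Finset
open scoped Classical

namespace Mom

variable {X ι : Type} [Fintype X] [Fintype ι]

/-- the average trace -/
theorem trace_sum (B D : ι → Matrix X X ℝ) (hBD : ∀ α x y, |B α x y| ≤ D α x y) {ρ κ : ℝ}
    (hκ : 0 < κ) (h1 : ∀ x, ∑ α, ∑ y, D α x y ≤ ρ) (h2 : ∀ x α, ∑ y, D α x y ≤ κ) (h : ℕ)
    (hh : 1 ≤ h) (hρ : (2 * h : ℕ) * κ ≤ ρ) :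
    ∑ Y : ι → Bool, ((∑ α, sg (Y α) • B α) ^ (2 * h)).trace ≤
      2 ^ (Fintype.card ι) * ((Fintype.card X : ℝ) * (4 * ((2 * h : ℕ) : ℝ) * κ * ρ) ^ h) := by
  have hD : ∀ α x y, 0 ≤ D α x y := fun α x y => (abs_nonneg _).trans (hBD α x y)
  set n : ℕ := 2 * h with hn
  have hn0 : (0 : ℝ) < n := by
    have : 0 < n := by omega
    exact_mod_cast this
  have hρ0 : 0 < ρ := lt_of_lt_of_le (by positivity) hρ
  set z : ℝ := n * κ / ρ with hz
  have hz0 : 0 < z := by positivity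
  have hz1 : z ≤ 1 := by rw [hz, div_le_one hρ0]; exact hρ
  have hw0 : ∀ s : Fin n → ι, ∀ x, 0 ≤ ∑ y, wp D n s x y := by
    intro s x
    exact sum_nonneg fun y _ => (abs_nonneg _).trans (wp_abs B D hBD n s x y)
  have e1 : ∑ Y : ι → Bool, ((∑ α, sg (Y α) • B α) ^ n).trace =
      ∑ s : Fin n → ι, (∑ Y : ι → Bool, ∏ t, sg (Y (s t))) * (wp B n s).trace := by
    have : ∀ Y : ι → Bool, ((∑ α, sg (Y α) • B α) ^ n).trace =
        ∑ s : Fin n → ι, (∏ t, sg (Y (s t))) * (wp B n s).trace := by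
      intro Y
      rw [pow_expand, Matrix.trace_sum]
      exact sum_congr rfl fun s _ => by rw [Matrix.trace_smul, smul_eq_mul]
    simp only [this]
    rw [sum_comm]
    exact sum_congr rfl fun s _ => by rw [sum_mul]
  have e2 : ∀ s : Fin n → ι, |(wp B n s).trace| ≤ ∑ x, ∑ y, wp D n s x y := by
    intro s
    refine (abs_sum_le_sum_abs _ _).trans (sum_le_sum fun x _ => ?_)
    refine (wp_abs B D hBD n s x x).trans ?_
    exact Finset.single_le_sum (f := fun y => wp D n s x y)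
      (fun y _ => (abs_nonneg _).trans (wp_abs B D hBD n s x y)) (mem_univ x)
  have e3 : z ^ h * ∑ Y : ι → Bool, ((∑ α, sg (Y α) • B α) ^ n).trace ≤
      ∑ s : Fin n → ι, 2 ^ (Fintype.card ι) * (z ^ ((univ.image s) \ (∅ : Finset ι)).card *
        ∑ x, ∑ y, wp D n s x y) := by
    rw [e1, mul_sum]
    refine sum_le_sum fun s _ => ?_
    have f1 := sum_signs n s
    have f2 := e2 s
    have f3 : 0 ≤ ∑ x, ∑ y, wp D n s x y := sum_nonneg fun x _ => hw0 s x
    have f4 : (∑ Y : ι → Bool, ∏ t, sg (Y (s t))) * (wp B n s).trace ≤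
        (if 2 * (univ.image s).card ≤ n then 2 ^ (Fintype.card ι) else 0) *
          ∑ x, ∑ y, wp D n s x y := by
      refine (le_abs_self _).trans ?_
      rw [abs_mul]
      exact mul_le_mul f1 f2 (abs_nonneg _) ((abs_nonneg _).trans f1)
    refine (mul_le_mul_of_nonneg_left f4 (by positivity)).trans ?_
    rw [sdiff_empty]
    split_ifs with hc
    · have f5 : z ^ h ≤ z ^ (univ.image s).card :=
        pow_le_pow_of_le_one hz0.le hz1 (by omega)
      calc z ^ h * (2 ^ Fintype.card ι * ∑ x, ∑ y, wp D n s x y)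
          ≤ z ^ (univ.image s).card * (2 ^ Fintype.card ι * ∑ x, ∑ y, wp D n s x y) :=
            mul_le_mul_of_nonneg_right f5 (by positivity)
        _ = _ := by ring
    · rw [zero_mul, mul_zero]
      positivity
  have e4 : ∑ s : Fin n → ι, 2 ^ (Fintype.card ι) * (z ^ ((univ.image s) \ (∅ : Finset ι)).card *
        ∑ x, ∑ y, wp D n s x y) ≤
      2 ^ (Fintype.card ι) * ((Fintype.card X : ℝ) * (z * ρ + n * κ) ^ n) := by
    rw [← mul_sum]
    refine mul_le_mul_of_nonneg_left ?_ (by positivity)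
    have f1 : ∀ x : X, ∑ s : Fin n → ι, z ^ ((univ.image s) \ (∅ : Finset ι)).card *
        ∑ y, wp D n s x y ≤ (z * ρ + n * κ) ^ n := fun x =>
      walk_count D hD hz0.le hκ.le h1 h2 n hρ0.le n ∅ (by simp) x
    calc _ = ∑ x : X, ∑ s : Fin n → ι, z ^ ((univ.image s) \ (∅ : Finset ι)).card *
          ∑ y, wp D n s x y := by
          rw [sum_comm]
          exact sum_congr rfl fun s _ => by rw [mul_sum]
      _ ≤ ∑ _x : X, (z * ρ + n * κ) ^ n := sum_le_sum fun x _ => f1 x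
      _ = _ := by simp
  have e5 : z * ρ + n * κ = 2 * (n * κ) := by
    rw [hz]; field_simp; ring
  have e6 : (z * ρ + n * κ) ^ n = z ^ h * (4 * (n : ℝ) * κ * ρ) ^ h := by
    rw [e5, hn, pow_mul, ← mul_pow]
    congr 1
    rw [hz]
    field_simp
    ring
  have e7 := e3.trans e4
  rw [e6] at e7
  have e8 : z ^ h * ∑ Y : ι → Bool, ((∑ α, sg (Y α) • B α) ^ n).trace ≤
      z ^ h * (2 ^ (Fintype.card ι) * ((Fintype.card X : ℝ) * (4 * (n : ℝ) * κ * ρ) ^ h)) := by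
    refine e7.trans (le_of_eq ?_)
    ring
  exact le_of_mul_le_mul_left e8 (by positivity)

end Mom

open Mom in
theorem mom : S_MOM := by
  intro X ι _ _ C l ρ κ M δ r f hsym hl hκ hδ hM hr hρ hκ' hrκ hX hf hQ
  obtain ⟨r', rfl⟩ : ∃ r', r = r' + 1 := ⟨r - 1, by omega⟩
  set h : ℕ := 2 ^ r' with hh
  have hh1 : 1 ≤ h := Nat.one_le_two_pow
  have hn : 2 ^ (r' + 1) = 2 * h := by rw [hh]; ring
  set B : ι → Matrix X X ℝ := fun α => Matrix.of fun x y => C α x y / l x with hB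
  set D : ι → Matrix X X ℝ := fun α => Matrix.of fun x y => |C α x y| / l x with hDdef
  have hBD : ∀ α x y, |B α x y| ≤ D α x y := by
    intro α x y
    simp only [hB, hDdef, Matrix.of_apply]
    rw [abs_div, abs_of_pos (hl x)]
  have hD1 : ∀ x, ∑ α, ∑ y, D α x y ≤ ρ := by
    intro x
    have : ∑ α, ∑ y, D α x y = (∑ α, ∑ y, |C α x y|) / l x := by
      simp only [hDdef, Matrix.of_apply]
      rw [sum_div]
      exact sum_congr rfl fun α _ => by rw [sum_div]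
    rw [this, div_le_iff₀ (hl x)]
    exact hρ x
  have hD2 : ∀ x α, ∑ y, D α x y ≤ κ := by
    intro x α
    have : ∑ y, D α x y = (∑ y, |C α x y|) / l x := by
      simp only [hDdef, Matrix.of_apply]
      rw [sum_div]
    rw [this, div_le_iff₀ (hl x)]
    exact hκ' x α
  set T : (ι → Bool) → Matrix X X ℝ := fun Y => ∑ α, sg (Y α) • B α with hT
  have hTxy : ∀ Y x y, l x * T Y x y = ∑ α, sg (Y α) * C α x y := by
    intro Y x y
    simp only [hT, Matrix.sum_apply, Matrix.smul_apply, hB, Matrix.of_apply, smul_eq_mul]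
    rw [mul_sum]
    refine sum_congr rfl fun α _ => ?_
    have := (hl x).ne'
    field_simp
  have hTsym : ∀ Y x y, l x * T Y x y = l y * T Y y x := by
    intro Y x y
    rw [hTxy, hTxy]
    exact sum_congr rfl fun α _ => by rw [hsym]
  have hq : ∀ Y, q (T Y) l (f Y) 1 = ∑ x, ∑ y, f Y x * (∑ α, sg (Y α) * C α x y) * f Y y := by
    intro Y
    unfold q
    refine sum_congr rfl fun x _ => ?_
    rw [pow_one]
    have : (T Y).mulVec (f Y) x = ∑ y, T Y x y * f Y y := rfl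
    rw [this, mul_sum]
    refine sum_congr rfl fun y _ => ?_
    rw [← hTxy]
    ring
  have hcard : Fintype.card (ι → Bool) = 2 ^ (Fintype.card ι) := by simp
  set c : ℝ := 2 ^ (Fintype.card ι) with hc
  have hc0 : 0 < c := by positivity
  have hw : ∑ _Y : ι → Bool, c⁻¹ = 1 := by
    rw [sum_const, card_univ, hcard, nsmul_eq_mul]
    push_cast
    rw [← hc]
    exact mul_inv_cancel₀ hc0.ne'
  have p1 := Real.pow_arith_mean_le_arith_mean_pow_of_even (univ : Finset (ι → Bool))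
    (fun _ => c⁻¹) (fun Y => q (T Y) l (f Y) 1) (fun _ _ => by positivity) hw
    (n := 2 * h) (even_two_mul h)
  have p2 : δ * M ≤ ∑ Y : ι → Bool, c⁻¹ * q (T Y) l (f Y) 1 := by
    rw [← mul_sum]
    simp only [hq]
    rw [le_inv_mul_iff₀ hc0]
    calc c * (δ * M) = δ * M * c := by ring
      _ ≤ _ := hQ
  have p3 : (δ * M) ^ (2 * h) ≤ ∑ Y : ι → Bool, c⁻¹ * (q (T Y) l (f Y) 1) ^ (2 * h) :=
    (pow_le_pow_left₀ (by positivity) p2 _).trans p1
  have p4 : ∀ Y, (q (T Y) l (f Y) 1) ^ (2 * h) ≤ M ^ (2 * h) * (T Y ^ (2 * h)).trace := by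
    intro Y
    have := q_pow (hTsym Y) hl (f Y) hM (hf Y) r'
    rwa [hn] at this
  have p5 : (δ * M) ^ (2 * h) ≤ c⁻¹ * (M ^ (2 * h) * ∑ Y, (T Y ^ (2 * h)).trace) := by
    refine p3.trans ?_
    rw [mul_sum, mul_sum]
    exact sum_le_sum fun Y _ => mul_le_mul_of_nonneg_left (p4 Y) (by positivity)
  have p6 := trace_sum B D hBD hκ hD1 hD2 h hh1 (by
    have : ((2 * h : ℕ) : ℝ) = 2 ^ (r' + 1) := by rw [← hn]; push_cast; ring
    rw [this]; exact hrκ)
  have p7 : (δ * M) ^ (2 * h) ≤ c⁻¹ * (M ^ (2 * h) *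
      (c * ((Fintype.card X : ℝ) * (4 * ((2 * h : ℕ) : ℝ) * κ * ρ) ^ h))) := by
    refine p5.trans ?_
    gcongr
  have p8 : c⁻¹ * (M ^ (2 * h) *
      (c * ((Fintype.card X : ℝ) * (4 * ((2 * h : ℕ) : ℝ) * κ * ρ) ^ h))) =
      M ^ (2 * h) * ((Fintype.card X : ℝ) * (4 * ((2 * h : ℕ) : ℝ) * κ * ρ) ^ h) := by
    field_simp
  rw [p8, mul_pow, mul_comm (δ ^ (2 * h))] at p7
  have p9 : δ ^ (2 * h) ≤ (Fintype.card X : ℝ) * (4 * ((2 * h : ℕ) : ℝ) * κ * ρ) ^ h :=
    le_of_mul_le_mul_left p7 (by positivity)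
  have hρ0 : 0 ≤ ρ := le_trans (by positivity) hrκ
  have p10 : (Fintype.card X : ℝ) ≤ 2 ^ (2 * h) := by
    rw [hn] at hX
    exact_mod_cast hX
  have p11 : (δ ^ 2) ^ h ≤ (16 * ρ * κ * ((2 * h : ℕ) : ℝ)) ^ h := by
    calc (δ ^ 2) ^ h = δ ^ (2 * h) := by rw [pow_mul]
      _ ≤ 2 ^ (2 * h) * (4 * ((2 * h : ℕ) : ℝ) * κ * ρ) ^ h :=
          p9.trans (mul_le_mul_of_nonneg_right p10 (by positivity))
      _ = _ := by
          rw [pow_mul, ← mul_pow]
          congr 1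
          ring
  have p12 : δ ^ 2 ≤ 16 * ρ * κ * ((2 * h : ℕ) : ℝ) :=
    (pow_le_pow_iff_left₀ (by positivity) (by positivity) (by omega)).1 p11
  calc δ ^ 2 ≤ _ := p12
    _ = 16 * ρ * κ * 2 ^ (r' + 1) := by
      rw [← hn]; push_cast; ring

end Pool.Agent.R563.TP
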