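import Pool.Agent.R563.TP.Stm

set_option autoImplicit false

namespace Pool.Agent.R563.TP

open Finset
open scoped Classical

namespace ParAux

/-- choice of the parameters -/
theorem params (N S W : ℕ) (δ : ℝ) (hN : 2 ≤ N) (hS : 1 ≤ S) (hW : 1 ≤ W) (hδ : 0 < δ)
    (hδ2 : δ ≤ 1 / 2)
    (h : 10 ^ 13 * (S : ℝ) * (W : ℝ) ^ 6 * (Real.logb 2 (N / δ)) ^ 6 < δ ^ 6 * (N : ℝ) ^ 2) :
    ∃ k u m r : ℕ, 1 ≤ k ∧ 1 ≤ u ∧ k * (u + 1) ≤ N ∧ k ^ 2 ≤ u * S ∧ 2 * S * W ≤ 2 ^ (2 ^ r) ∧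
      1 ≤ r ∧ (k : ℝ) ^ 2 * (W + 1) * u ≤ δ * 2 ^ m ∧ (N : ℝ) * S < 16 * (k : ℝ) ^ 3 ∧
      (2 + (m : ℝ)) * 2 ^ r ≤ 27 * (Real.logb 2 (N / δ)) ^ 2 := by
  set L := Real.logb 2 (N / δ) with hL
  have hn2 : (2 : ℝ) ≤ N := by exact_mod_cast hN
  have hs1 : (1 : ℝ) ≤ S := by exact_mod_cast hS
  have hw1 : (1 : ℝ) ≤ W := by exact_mod_cast hW
  have hnδ : 0 < (N : ℝ) / δ := by positivity
  have h4 : (4 : ℝ) ≤ N / δ := by
    rw [le_div_iff₀ hδ]; nlinarith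
  have hL2 : 2 ≤ L := by
    rw [hL, Real.le_logb_iff_rpow_le (by norm_num) hnδ]
    have : (2 : ℝ) ^ (2 : ℝ) = 4 := by
      rw [show (2 : ℝ) = ((2 : ℕ) : ℝ) by norm_num, Real.rpow_natCast]; norm_num
    rw [this]
    exact h4
  -- the simple consequences
  have hL6 : (64 : ℝ) ≤ L ^ 6 := by
    calc (64 : ℝ) = 2 ^ 6 := by norm_num
      _ ≤ L ^ 6 := by gcongr
  have hδ6 : δ ^ 6 ≤ 1 / 64 := by
    calc δ ^ 6 ≤ (1 / 2) ^ 6 := by gcongr
      _ = 1 / 64 := by norm_num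
  have hbase : 10 ^ 13 * (S : ℝ) * (W : ℝ) ^ 6 * 4096 < (N : ℝ) ^ 2 := by
    have e1 : 10 ^ 13 * (S : ℝ) * (W : ℝ) ^ 6 * 64 ≤ 10 ^ 13 * (S : ℝ) * (W : ℝ) ^ 6 * L ^ 6 := by
      gcongr
    have e2 : δ ^ 6 * (N : ℝ) ^ 2 ≤ 1 / 64 * (N : ℝ) ^ 2 := by gcongr
    linarith
  have hw6 : (1 : ℝ) ≤ (W : ℝ) ^ 6 := one_le_pow₀ hw1
  have hSN : 10 ^ 13 * (S : ℝ) * 4096 < (N : ℝ) ^ 2 := by
    refine lt_of_le_of_lt ?_ hbase
    have : (0 : ℝ) ≤ 10 ^ 13 * (S : ℝ) := by positivity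
    nlinarith
  have hSN' : 10 ^ 13 * S * 4096 < N ^ 2 := by exact_mod_cast hSN
  have hWN : W < N := by
    have e1 : (W : ℝ) ^ 6 < (N : ℝ) ^ 2 := by
      refine lt_of_le_of_lt ?_ hbase
      have : (0 : ℝ) ≤ (W : ℝ) ^ 6 := by positivity
      nlinarith
    have e2 : W ^ 6 < N ^ 2 := by exact_mod_cast e1
    have e3 : W ^ 2 < N ^ 2 := lt_of_le_of_lt (Nat.pow_le_pow_right hW (by norm_num)) e2
    exact lt_of_pow_lt_pow_left₀ 2 (Nat.zero_le _) e3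
  -- k
  set P : ℕ → Prop := fun k => 2 * k ^ 3 ≤ N * S with hP
  set k := Nat.findGreatest P (N * S) with hk
  have hNS : 2 ≤ N * S := by nlinarith
  have hPk : P k := Nat.findGreatest_spec (m := 1) (by omega) (by simp only [hP]; omega)
  have hk1 : 1 ≤ k := Nat.le_findGreatest (by omega) (by simp only [hP]; omega)
  have hPk' : 2 * k ^ 3 ≤ N * S := hPk
  have hk2 : N * S < 2 * (k + 1) ^ 3 := by
    by_contra hcon
    push Not at hcon
    have e1 : k + 1 ≤ N * S := by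
      have : k + 1 ≤ (k + 1) ^ 3 := Nat.le_self_pow (by norm_num) _
      omega
    exact Nat.findGreatest_is_greatest (P := P) (n := N * S) (k := k + 1) (by omega) e1 hcon
  have hk4 : 4 * k ≤ N := by
    have e1 : (4 * k) ^ 3 ≤ N ^ 3 := by
      have e2 : 2 * k ^ 3 * (10 ^ 13 * 4096) ≤ N * N ^ 2 := by
        calc 2 * k ^ 3 * (10 ^ 13 * 4096) ≤ N * S * (10 ^ 13 * 4096) := Nat.mul_le_mul_right _ hPk'
          _ = N * (10 ^ 13 * S * 4096) := by ring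
          _ ≤ N * N ^ 2 := Nat.mul_le_mul_left _ hSN'.le
      have e3 : N * N ^ 2 = N ^ 3 := by ring
      have e4 : (4 * k) ^ 3 = 64 * k ^ 3 := by ring
      rw [e4, ← e3]
      omega
    exact (Nat.pow_le_pow_iff_left (by norm_num)).1 e1
  have hkN : (N : ℝ) * S < 16 * (k : ℝ) ^ 3 := by
    have e1 : 2 * (k + 1) ^ 3 ≤ 16 * k ^ 3 := by
      have : (k + 1) ^ 3 ≤ (2 * k) ^ 3 := Nat.pow_le_pow_left (by omega) 3
      have e2 : (2 * k) ^ 3 = 8 * k ^ 3 := by ring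
      omega
    exact_mod_cast lt_of_lt_of_le hk2 e1
  -- u
  set q := k ^ 2 / S with hq
  have hq1 : q * S ≤ k ^ 2 := Nat.div_mul_le_self _ _
  have hq2 : k ^ 2 ≤ (q + 1) * S := by
    have e1 := Nat.div_add_mod (k ^ 2) S
    have e2 := Nat.mod_lt (k ^ 2) hS
    rw [← hq] at e1
    nlinarith
  have hku : k * (q + 1 + 1) ≤ N := by
    have e1 : 2 * k * q ≤ N := by
      have e2 : (2 * k * q) * S ≤ N * S := by
        calc (2 * k * q) * S = 2 * k * (q * S) := by ring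
          _ ≤ 2 * k * k ^ 2 := Nat.mul_le_mul_left _ hq1
          _ = 2 * k ^ 3 := by ring
          _ ≤ N * S := hPk'
      exact Nat.le_of_mul_le_mul_right e2 hS
    nlinarith
  -- m
  have hpow : (2 : ℝ) ^ (3 * L) = (N / δ) ^ 3 := by
    rw [mul_comm, Real.rpow_mul (by norm_num), hL, Real.rpow_logb (by norm_num) (by norm_num) hnδ]
    exact_mod_cast Real.rpow_natCast (N / δ) 3
  set m := ⌈3 * L⌉₊ with hm
  have hm1 : 3 * L ≤ m := Nat.le_ceil _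
  have hm2 : (m : ℝ) < 3 * L + 1 := Nat.ceil_lt_add_one (by linarith)
  have h2m : (N / δ) ^ 3 ≤ (2 : ℝ) ^ m := by
    rw [← hpow, ← Real.rpow_natCast]
    exact Real.rpow_le_rpow_of_exponent_le (by norm_num) hm1
  have hN3 : (N : ℝ) ^ 3 ≤ (N / δ) ^ 3 := by
    have : (N : ℝ) ≤ N / δ := by
      rw [le_div_iff₀ hδ]; nlinarith
    gcongr
  have hN3' : (N : ℝ) ^ 3 ≤ δ * (N / δ) ^ 3 := by
    have e1 : δ * (N / δ) ^ 3 = (N : ℝ) ^ 3 / δ ^ 2 := by field_simp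
    rw [e1, le_div_iff₀ (by positivity)]
    have e2 : δ ^ 2 ≤ 1 := by nlinarith
    have e3 : (0 : ℝ) ≤ (N : ℝ) ^ 3 := by positivity
    nlinarith
  have hkwu : (k : ℝ) ^ 2 * (W + 1) * ((q + 1 : ℕ) : ℝ) ≤ δ * 2 ^ m := by
    have e1 : k ^ 2 * (W + 1) * (q + 1) ≤ N ^ 3 := by
      have e2 : k * (q + 1) ≤ N := le_trans (Nat.mul_le_mul_left _ (by omega)) hku
      have e3 : k ≤ N := by omega
      calc k ^ 2 * (W + 1) * (q + 1) = k * (k * (q + 1)) * (W + 1) := by ring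
        _ ≤ N * N * N := Nat.mul_le_mul (Nat.mul_le_mul e3 e2) (by omega)
        _ = N ^ 3 := by ring
    have e2 : (k : ℝ) ^ 2 * (W + 1) * ((q + 1 : ℕ) : ℝ) ≤ (N : ℝ) ^ 3 := by exact_mod_cast e1
    calc _ ≤ (N : ℝ) ^ 3 := e2
      _ ≤ δ * (N / δ) ^ 3 := hN3'
      _ ≤ δ * 2 ^ m := by gcongr
  -- r
  have hex : ∃ r : ℕ, 3 * L ≤ (2 : ℝ) ^ r := by
    obtain ⟨r, hr⟩ := pow_unbounded_of_one_lt (3 * L) (by norm_num : (1 : ℝ) < 2)
    exact ⟨r, hr.le⟩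
  set r := Nat.find hex with hr
  have hr1 : 3 * L ≤ (2 : ℝ) ^ r := Nat.find_spec hex
  have hr0 : 1 ≤ r := by
    by_contra hcon
    have e0 : r = 0 := by omega
    rw [e0] at hr1
    norm_num at hr1
    linarith
  have hr2 : (2 : ℝ) ^ r < 6 * L := by
    have e1 : ¬ 3 * L ≤ (2 : ℝ) ^ (r - 1) := Nat.find_min hex (by omega)
    rw [not_le] at e1
    have e2 : (2 : ℝ) ^ r = 2 * 2 ^ (r - 1) := by
      rw [← pow_succ']
      congr 1
      omega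
    rw [e2]
    linarith
  have hSW : 2 * S * W ≤ 2 ^ (2 ^ r) := by
    have e1 : 2 * S * W ≤ N ^ 3 := by
      have e2 : 2 * S ≤ N ^ 2 := by omega
      calc 2 * S * W ≤ N ^ 2 * N := Nat.mul_le_mul e2 hWN.le
        _ = N ^ 3 := by ring
    have e2 : ((2 * S * W : ℕ) : ℝ) ≤ (2 : ℝ) ^ (2 ^ r) := by
      calc ((2 * S * W : ℕ) : ℝ) ≤ (N : ℝ) ^ 3 := by exact_mod_cast e1
        _ ≤ (N / δ) ^ 3 := hN3
        _ = (2 : ℝ) ^ (3 * L) := hpow.symm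
        _ ≤ (2 : ℝ) ^ (((2 ^ r : ℕ)) : ℝ) :=
            Real.rpow_le_rpow_of_exponent_le (by norm_num) (by push_cast; exact hr1)
        _ = (2 : ℝ) ^ (2 ^ r) := Real.rpow_natCast _ _
    exact_mod_cast e2
  refine ⟨k, q + 1, m, r, hk1, Nat.le_add_left 1 q, hku, hq2, hSW, hr0, hkwu, hkN, ?_⟩
  have e1 : 2 + (m : ℝ) ≤ 9 / 2 * L := by linarith
  calc (2 + (m : ℝ)) * 2 ^ r ≤ (9 / 2 * L) * (6 * L) := by gcongr
    _ = 27 * L ^ 2 := by ring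

theorem sg_mul (a b : Bool) : sg a * sg b = 2 * (if b = a then 1 else 0) - 1 := by
  cases a <;> cases b <;> simp [sg] <;> norm_num

theorem sg_mul_le (a b : Bool) : sg a * sg b ≤ 1 := by
  rw [sg_mul]
  split_ifs <;> norm_num

/-- the average over the algorithms -/
theorem avg {k S W u : ℕ} {Ω : Type} [Fintype Ω] {p : Ω → ℝ} {A : Ω → Alg k S W}
    {mem : Ω → (Fin k → Fin u) → (Fin k → Fin u → Bool) → Fin S → Fin W} {δ : ℝ}
    (h : Solves p A mem δ) :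
    ∃ ω, 2 * δ * ((k : ℝ) ^ 2 * 2 ^ (k * u)) * (u : ℝ) ^ k ≤
      ∑ e : Fin k → Fin u, ∑ Y : Fin k → Fin u → Bool, ∑ i, ∑ j,
        sg (Y j (e i)) * sg ((A ω).run (mem ω e Y) i j) := by
  obtain ⟨hp0, hp1, hsol⟩ := h
  let t : Ω → ((Fin k → Fin u) × (Fin k → Fin u → Bool) × Fin k × Fin k) → ℝ := fun ω x =>
    sg (x.2.1 x.2.2.2 (x.1 x.2.2.1)) * sg ((A ω).run (mem ω x.1 x.2.1) x.2.2.1 x.2.2.2)
  have hT : ∀ ω, ∑ x, t ω x = ∑ e : Fin k → Fin u, ∑ Y : Fin k → Fin u → Bool, ∑ i, ∑ j,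
        sg (Y j (e i)) * sg ((A ω).run (mem ω e Y) i j) := by
    intro ω
    simp only [t, Fintype.sum_prod_type]
  have hx : ∀ x, 2 * δ ≤ ∑ ω, p ω * t ω x := by
    intro x
    have h1 := hsol x.1 x.2.1 x.2.2.1 x.2.2.2
    have h2 : ∑ ω, p ω * t ω x = 2 * (∑ ω with (A ω).run (mem ω x.1 x.2.1) x.2.2.1 x.2.2.2 =
        x.2.1 x.2.2.2 (x.1 x.2.2.1), p ω) - 1 := by
      rw [Finset.sum_filter, Finset.mul_sum, ← hp1, ← Finset.sum_sub_distrib]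
      refine Finset.sum_congr rfl fun ω _ => ?_
      simp only [t]
      rw [sg_mul]
      split_ifs <;> ring
    rw [h2]
    linarith
  have hsum : 2 * δ * ((k : ℝ) ^ 2 * 2 ^ (k * u)) * (u : ℝ) ^ k ≤ ∑ ω, p ω * ∑ x, t ω x := by
    have h1 : ∑ ω, p ω * ∑ x, t ω x = ∑ x, ∑ ω, p ω * t ω x := by
      rw [Finset.sum_comm]
      refine Finset.sum_congr rfl fun ω _ => ?_
      rw [Finset.mul_sum]
    rw [h1]
    have h2 : ∑ _x : (Fin k → Fin u) × (Fin k → Fin u → Bool) × Fin k × Fin k, 2 * δ =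
        2 * δ * ((k : ℝ) ^ 2 * 2 ^ (k * u)) * (u : ℝ) ^ k := by
      rw [Finset.sum_const, nsmul_eq_mul, Finset.card_univ]
      simp only [Fintype.card_prod, Fintype.card_fun, Fintype.card_fin, Fintype.card_bool]
      push_cast
      rw [← pow_mul, mul_comm u k]
      ring
    rw [← h2]
    exact Finset.sum_le_sum fun x _ => hx x
  by_contra hcon
  push Not at hcon
  have hlt : ∑ ω, p ω * ∑ x, t ω x < ∑ ω, p ω *
      (2 * δ * ((k : ℝ) ^ 2 * 2 ^ (k * u)) * (u : ℝ) ^ k) := by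
    have hex : ∃ ω, 0 < p ω := by
      by_contra hc
      push Not at hc
      have : ∑ ω, p ω ≤ 0 := Finset.sum_nonpos fun ω _ => hc ω
      linarith
    obtain ⟨ω0, hω0⟩ := hex
    refine Finset.sum_lt_sum (fun ω _ => ?_) ⟨ω0, Finset.mem_univ _, ?_⟩
    · refine mul_le_mul_of_nonneg_left ?_ (hp0 ω)
      rw [hT]
      exact (hcon ω).le
    · refine mul_lt_mul_of_pos_left ?_ hω0
      rw [hT]
      exact hcon ω0
  rw [← Finset.sum_mul, hp1, one_mul] at hlt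
  linarith

end ParAux

open ParAux in
theorem par (h1 : S_GOOD) (h2 : S_CORE) : S_PAR := by
  intro N S W δ hN hS hW hδ hδ2 h
  obtain ⟨k, u, m, r, hk, hu, hku, hkuS, hSW, hr, hbad, hNS, hmr⟩ := params N S W δ hN hS hW hδ hδ2 h
  refine ⟨k, u, hk, hu, hku, ?_⟩
  intro Ω _ p A mem hsol
  obtain ⟨ω, hω⟩ := avg hsol
  set K : ℝ := (k : ℝ) ^ 2 * 2 ^ (k * u) with hK
  have hkpos : (0 : ℝ) < k := by exact_mod_cast hk
  have hupos : (0 : ℝ) < u := by exact_mod_cast hu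
  have hKpos : 0 < K := by positivity
  set inner : (Fin k → Fin u) → ℝ := fun e => ∑ Y : Fin k → Fin u → Bool, ∑ i, ∑ j,
        sg (Y j (e i)) * sg ((A ω).run (mem ω e Y) i j) with hinner
  have hle : ∀ e, inner e ≤ K := by
    intro e
    have e1 : inner e ≤ ∑ _Y : Fin k → Fin u → Bool, ∑ _i : Fin k, ∑ _j : Fin k, (1 : ℝ) :=
      Finset.sum_le_sum fun Y _ => Finset.sum_le_sum fun i _ => Finset.sum_le_sum fun j _ =>
        sg_mul_le _ _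
    refine e1.trans (le_of_eq ?_)
    simp only [Finset.sum_const, Finset.card_univ, Fintype.card_fun, Fintype.card_fin,
      Fintype.card_bool, nsmul_eq_mul, mul_one]
    push_cast
    rw [← pow_mul, mul_comm u k, hK]
    ring
  -- a good `e` with a large inner sum
  obtain ⟨e, hgood, hlarge⟩ : ∃ e, Good (A ω) u m e ∧ δ * K ≤ inner e := by
    by_contra hcon
    push Not at hcon
    set G := (univ.filter fun e : Fin k → Fin u => Good (A ω) u m e).card with hG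
    set B := (univ.filter fun e : Fin k → Fin u => ¬ Good (A ω) u m e).card with hB
    have hGB : G + B = u ^ k := by
      rw [hG, hB, Finset.card_filter_add_card_filter_not]
      simp
    have hGB' : (G : ℝ) + B = (u : ℝ) ^ k := by exact_mod_cast hGB
    have hukpos : (0 : ℝ) < (u : ℝ) ^ k := by positivity
    have hBle : (B : ℝ) ≤ δ * (u : ℝ) ^ k := by
      have e1 := h1 k S W u m (A ω) hu
      rw [← hB] at e1
      have e2 : (2 : ℝ) ^ m * B ≤ 2 ^ m * (δ * (u : ℝ) ^ k) := by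
        calc (2 : ℝ) ^ m * B ≤ (k : ℝ) ^ 2 * (W + 1) * u * (u : ℝ) ^ k := e1
          _ ≤ δ * 2 ^ m * (u : ℝ) ^ k := by gcongr
          _ = 2 ^ m * (δ * (u : ℝ) ^ k) := by ring
      exact le_of_mul_le_mul_left e2 (by positivity)
    have hGpos : 0 < G := by
      have : (0 : ℝ) < G := by nlinarith
      exact_mod_cast this
    have hsplit : ∑ e, inner e = ∑ e with Good (A ω) u m e, inner e +
        ∑ e with ¬ Good (A ω) u m e, inner e := (Finset.sum_filter_add_sum_filter_not _ _ _).symm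
    have e1 : ∑ e with Good (A ω) u m e, inner e < G * (δ * K) := by
      rw [hG, ← nsmul_eq_mul, ← Finset.sum_const]
      refine Finset.sum_lt_sum_of_nonempty (Finset.card_pos.1 hGpos) fun e he => ?_
      exact hcon e (Finset.mem_filter.1 he).2
    have e2 : ∑ e with ¬ Good (A ω) u m e, inner e ≤ B * K := by
      rw [hB, ← nsmul_eq_mul, ← Finset.sum_const]
      exact Finset.sum_le_sum fun e _ => hle e
    have e3 : (G : ℝ) ≤ (u : ℝ) ^ k := by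
      have : (0 : ℝ) ≤ B := Nat.cast_nonneg _
      linarith
    have e4 : ∑ e, inner e < 2 * δ * K * (u : ℝ) ^ k := by
      rw [hsplit]
      calc _ < G * (δ * K) + B * K := by linarith
        _ ≤ (u : ℝ) ^ k * (δ * K) + (δ * (u : ℝ) ^ k) * K := by gcongr
        _ = 2 * δ * K * (u : ℝ) ^ k := by ring
    exact absurd hω (not_le.2 e4)
  have hcore := h2 k S W u m r (A ω) e δ hgood hk hS hW hu hkuS hSW hδ (by linarith) hr (mem ω e)
    (by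
      refine le_trans (le_of_eq ?_) hlarge
      rw [hK]; ring)
  -- the final computation
  set L := Real.logb 2 (N / δ) with hL
  have hs1 : (1 : ℝ) ≤ S := by exact_mod_cast hS
  have hw1 : (1 : ℝ) ≤ W := by exact_mod_cast hW
  have f1 : δ ^ 2 * (k : ℝ) ^ 2 ≤ 1728 * (W : ℝ) ^ 2 * L ^ 2 * S := by
    calc δ ^ 2 * (k : ℝ) ^ 2 ≤ 64 * (W : ℝ) ^ 2 * (2 + m) * 2 ^ r * S := hcore
      _ = 64 * (W : ℝ) ^ 2 * ((2 + m) * 2 ^ r) * S := by ring
      _ ≤ 64 * (W : ℝ) ^ 2 * (27 * L ^ 2) * S := by gcongr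
      _ = _ := by ring
  have f2 : (δ ^ 2 * (k : ℝ) ^ 2) ^ 3 ≤ (1728 * (W : ℝ) ^ 2 * L ^ 2 * S) ^ 3 := by gcongr
  have f3 : ((N : ℝ) * S) ^ 2 ≤ (16 * (k : ℝ) ^ 3) ^ 2 := by gcongr
  have f4 : δ ^ 6 * (N : ℝ) ^ 2 * (S : ℝ) ^ 2 ≤
      (256 * 1728 ^ 3 * (S : ℝ) * (W : ℝ) ^ 6 * L ^ 6) * (S : ℝ) ^ 2 := by
    calc δ ^ 6 * (N : ℝ) ^ 2 * (S : ℝ) ^ 2 = δ ^ 6 * ((N : ℝ) * S) ^ 2 := by ring
      _ ≤ δ ^ 6 * (16 * (k : ℝ) ^ 3) ^ 2 := by gcongr
      _ = 256 * (δ ^ 2 * (k : ℝ) ^ 2) ^ 3 := by ring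
      _ ≤ 256 * (1728 * (W : ℝ) ^ 2 * L ^ 2 * S) ^ 3 := by gcongr
      _ = _ := by ring
  have f5 : δ ^ 6 * (N : ℝ) ^ 2 ≤ 256 * 1728 ^ 3 * (S : ℝ) * (W : ℝ) ^ 6 * L ^ 6 :=
    le_of_mul_le_mul_right f4 (by positivity)
  have f6 : 256 * 1728 ^ 3 * (S : ℝ) * (W : ℝ) ^ 6 * L ^ 6 ≤
      10 ^ 13 * (S : ℝ) * (W : ℝ) ^ 6 * L ^ 6 := by
    have g1 : (0 : ℝ) ≤ (S : ℝ) * (W : ℝ) ^ 6 * L ^ 6 := by positivity
    nlinarith
  linarith

end Pool.Agent.R563.TP
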