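import Pool.Agent.R563.TP.Stm

set_option autoImplicit false

/-!
# Piece SET: from `S_PAR`, by truncation of decision trees
-/

namespace Pool.Agent.R563.TP

open Finset
open scoped Classical

section Trunc

variable {S W u : ℕ}

/-- the cell probed first -/
def fc (z0 : Fin S) : Pool.Agent.W964.Si.Alg S W (Finset (Fin u)) → Fin S
  | .answer _ => z0
  | .probe c _ => c

/-- the cell probed next -/
def sc (z0 : Fin S) : Pool.Agent.W964.Si.Alg S W (Finset (Fin u)) → Fin W → Fin S
  | .answer _, _ => z0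
  | .probe _ next, v => fc z0 (next v)

/-- the answer of a tree without probes -/
noncomputable def an0 : Pool.Agent.W964.Si.Alg S W (Finset (Fin u)) → Bool
  | .answer o => !(decide (o = ∅))
  | .probe _ _ => true

/-- the answer of a tree after at most one probe -/
noncomputable def an1 : Pool.Agent.W964.Si.Alg S W (Finset (Fin u)) → Fin W → Bool
  | .answer o, _ => !(decide (o = ∅))
  | .probe _ next, v => an0 (next v)

/-- the answer of a tree after at most two probes -/
noncomputable def an2 : Pool.Agent.W964.Si.Alg S W (Finset (Fin u)) → Fin W → Fin W → Bool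
  | .answer o, _, _ => !(decide (o = ∅))
  | .probe _ next, v, v' => an1 (next v) v'

theorem an0_eq (mem : Fin S → Fin W) (Q : Pool.Agent.W964.Si.Alg S W (Finset (Fin u))) :
    an0 Q = !(decide (Q.probes mem ≤ 0 ∧ Q.out mem = ∅)) := by
  cases Q with
  | answer o => simp [an0, Pool.Agent.W964.Si.Alg.probes, Pool.Agent.W964.Si.Alg.out]
  | probe c next => simp [an0, Pool.Agent.W964.Si.Alg.probes]

theorem an1_eq (z0 : Fin S) (mem : Fin S → Fin W)
    (Q : Pool.Agent.W964.Si.Alg S W (Finset (Fin u))) :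
    an1 Q (mem (fc z0 Q)) = !(decide (Q.probes mem ≤ 1 ∧ Q.out mem = ∅)) := by
  cases Q with
  | answer o => simp [an1, Pool.Agent.W964.Si.Alg.probes, Pool.Agent.W964.Si.Alg.out]
  | probe c next =>
    have h := an0_eq mem (next (mem c))
    simp only [an1, fc, Pool.Agent.W964.Si.Alg.probes, Pool.Agent.W964.Si.Alg.out, h]
    congr 2
    simp

theorem an2_eq (z0 : Fin S) (mem : Fin S → Fin W)
    (Q : Pool.Agent.W964.Si.Alg S W (Finset (Fin u))) :
    an2 Q (mem (fc z0 Q)) (mem (sc z0 Q (mem (fc z0 Q)))) =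
      !(decide (Q.probes mem ≤ 2 ∧ Q.out mem = ∅)) := by
  cases Q with
  | answer o => simp [an2, Pool.Agent.W964.Si.Alg.probes, Pool.Agent.W964.Si.Alg.out]
  | probe c next =>
    have h := an1_eq z0 mem (next (mem c))
    show an1 (next (mem c)) (mem (fc z0 (next (mem c)))) = _
    rw [h]
    simp [Pool.Agent.W964.Si.Alg.probes, Pool.Agent.W964.Si.Alg.out]

end Trunc

/-- the family of sets of the data `e`, `Y` -/
noncomputable def fam {k u : ℕ} (e : Fin k → Fin u) (Y : Fin k → Fin u → Bool) :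
    Fin (k + k) → Finset (Fin u) :=
  Fin.addCases (fun i => {e i}) (fun j => univ.filter fun c => Y j c = true)

theorem fam_left {k u : ℕ} (e : Fin k → Fin u) (Y : Fin k → Fin u → Bool) (i : Fin k) :
    fam e Y (Fin.castAdd k i) = {e i} := by
  rw [fam, Fin.addCases_left]

theorem fam_right {k u : ℕ} (e : Fin k → Fin u) (Y : Fin k → Fin u → Bool) (j : Fin k) :
    fam e Y (Fin.natAdd k j) = univ.filter fun c => Y j c = true := by
  rw [fam, Fin.addCases_right]

theorem fam_card {k u : ℕ} (e : Fin k → Fin u) (Y : Fin k → Fin u → Bool) :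
    ∑ l, (fam e Y l).card ≤ k * (u + 1) := by
  rw [Fin.sum_univ_add]
  have h1 : ∑ i : Fin k, (fam e Y (Fin.castAdd k i)).card = k := by
    simp [fam_left]
  have h2 : ∑ j : Fin k, (fam e Y (Fin.natAdd k j)).card ≤ k * u := by
    calc ∑ j : Fin k, (fam e Y (Fin.natAdd k j)).card ≤ ∑ _j : Fin k, u :=
          Finset.sum_le_sum fun j _ => (Finset.card_le_univ _).trans (by simp)
      _ = k * u := by simp
  rw [h1]
  calc k + _ ≤ k + k * u := Nat.add_le_add_left h2 k
    _ = k * (u + 1) := by ring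

theorem set (h : S_PAR) : S_SET := by
  intro N S W δ C T hN hS hW hδ hδ2 hCT
  by_cases hb : δ ^ 6 * (N : ℝ) ^ 2 ≤ 10 ^ 13 * (S : ℝ) * (W : ℝ) ^ 6 * (Real.logb 2 (N / δ)) ^ 6
  · exact ⟨0, 0, fun _ _ _ _ _ => hb⟩
  rw [not_le] at hb
  obtain ⟨k, u, hk, hu, hku, hns⟩ := h N S W δ hN hS hW hδ hδ2 hb
  refine ⟨k + k, u, ?_⟩
  intro Ω _ p D hD
  exfalso
  obtain ⟨hp0, hp1, hsol⟩ := hD
  have z0 : Fin S := ⟨0, hS⟩
  refine hns Ω p
    (fun ω => ⟨fun i j => fc z0 ((D ω).query (Fin.castAdd k i) (Fin.natAdd k j)),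
      fun i j => sc z0 ((D ω).query (Fin.castAdd k i) (Fin.natAdd k j)),
      fun i j => an2 ((D ω).query (Fin.castAdd k i) (Fin.natAdd k j))⟩)
    (fun ω e Y => (D ω).memory (fam e Y)) ⟨hp0, hp1, ?_⟩
  intro e Y i j
  have hF := hsol (fam e Y) ((fam_card e Y).trans hku) (Fin.castAdd k i) (Fin.natAdd k j)
  refine hF.trans ?_
  refine Finset.sum_le_sum_of_subset_of_nonneg ?_ (fun ω _ _ => hp0 ω)
  intro ω hω
  rw [Finset.mem_filter] at hω ⊢
  refine ⟨Finset.mem_univ _, ?_⟩
  obtain ⟨_, hout, hpr⟩ := hω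
  have hrun := an2_eq z0 ((D ω).memory (fam e Y))
    ((D ω).query (Fin.castAdd k i) (Fin.natAdd k j))
  show an2 _ _ _ = _
  rw [hrun]
  rw [hout]
  have hinter : fam e Y (Fin.castAdd k i) ∩ fam e Y (Fin.natAdd k j) = ∅ ↔ Y j (e i) = false := by
    rw [fam_left, fam_right, ← Finset.disjoint_iff_inter_eq_empty, Finset.disjoint_singleton_left,
      Finset.mem_filter]
    simp
  cases hY : Y j (e i) with
  | false =>
    have he := hinter.2 hY
    rw [he] at hpr
    simp only [Finset.card_empty, Nat.cast_zero, add_zero] at hpr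
    have h3 : ((((D ω).query (Fin.castAdd k i) (Fin.natAdd k j)).probes
        ((D ω).memory (fam e Y)) : ℕ) : ℝ) < 3 := lt_of_le_of_lt hpr hCT
    have h3' : ((D ω).query (Fin.castAdd k i) (Fin.natAdd k j)).probes
        ((D ω).memory (fam e Y)) < 3 := by exact_mod_cast h3
    have h2 : ((D ω).query (Fin.castAdd k i) (Fin.natAdd k j)).probes
        ((D ω).memory (fam e Y)) ≤ 2 := by omega
    rw [decide_eq_true (show _ ∧ _ from ⟨h2, he⟩)]
    rfl
  | true =>
    have hne : fam e Y (Fin.castAdd k i) ∩ fam e Y (Fin.natAdd k j) ≠ ∅ := by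
      intro hh
      rw [hinter.1 hh] at hY
      exact Bool.noConfusion hY
    rw [decide_eq_false (fun hh => hne hh.2)]
    rfl

end Pool.Agent.R563.TP
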