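import Mathlib
import Pool.Agent.W964.Si.Defs

set_option autoImplicit false

/-!
# Two adaptive probes of short words: statements

`S` cells with `W` possible contents each. A query `(i, j)` probes the cell `a i j`, then, if its
contents are `v`, the cell `b i j v`, and answers `g i j v v'` if the contents of the second cell are
`v'`. The data are `e : Fin k → Fin u` and `Y : Fin k → Fin u → Bool`, the right answer of the query
`(i, j)` is `Y j (e i)`.
-/

namespace Pool.Agent.R563.TP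

open Finset
open scoped Classical

/-- the sign of a truth value -/
noncomputable def sg (b : Bool) : ℝ := if b = true then 1 else -1

/-- A query algorithm with two adaptive probes. -/
structure Alg (k S W : ℕ) where
  /-- the cell probed first -/
  a : Fin k → Fin k → Fin S
  /-- the cell probed next -/
  b : Fin k → Fin k → Fin W → Fin S
  /-- the answer -/
  g : Fin k → Fin k → Fin W → Fin W → Bool

/-- the answer of the query `(i, j)` when the contents of the cells are `c` -/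
def Alg.run {k S W : ℕ} (A : Alg k S W) (c : Fin S → Fin W) (i j : Fin k) : Bool :=
  A.g i j (c (A.a i j)) (c (A.b i j (c (A.a i j))))

/-- No cell is used for many queries of one class: the classes of the queries are the pairs
`(j, e i)`. -/
def Good {k S W : ℕ} (A : Alg k S W) (u m : ℕ) (e : Fin k → Fin u) : Prop :=
  (∀ (s : Fin S) (j : Fin k) (c : Fin u),
    ((univ.filter fun i : Fin k => A.a i j = s ∧ e i = c).card : ℝ) ≤
      2 * ((univ.filter fun i : Fin k => A.a i j = s).card : ℝ) / u + m) ∧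
  (∀ (s : Fin S) (j : Fin k) (v : Fin W) (c : Fin u),
    ((univ.filter fun i : Fin k => A.b i j v = s ∧ e i = c).card : ℝ) ≤
      2 * ((univ.filter fun i : Fin k => A.b i j v = s).card : ℝ) / u + m)

/-- **Piece GOOD**: most `e` are good. -/
def S_GOOD : Prop := ∀ (k S W u m : ℕ) (A : Alg k S W), 1 ≤ u →
  (2 : ℝ) ^ m * ((univ.filter fun e : Fin k → Fin u => ¬ Good A u m e).card : ℝ) ≤
    (k : ℝ) ^ 2 * (W + 1) * u * (u : ℝ) ^ k

/-- **Piece CORE**: for good `e` the answers have a small advantage. -/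
def S_CORE : Prop := ∀ (k S W u m r : ℕ) (A : Alg k S W) (e : Fin k → Fin u) (δ : ℝ),
  Good A u m e → 1 ≤ k → 1 ≤ S → 1 ≤ W → 1 ≤ u → k ^ 2 ≤ u * S → 2 * S * W ≤ 2 ^ (2 ^ r) →
  0 < δ → δ ≤ 1 → 1 ≤ r →
  ∀ c : (Fin k → Fin u → Bool) → Fin S → Fin W,
    δ * (k : ℝ) ^ 2 * 2 ^ (k * u) ≤ ∑ Y, ∑ i, ∑ j, sg (Y j (e i)) * sg (A.run (c Y) i j) →
    δ ^ 2 * (k : ℝ) ^ 2 ≤ 64 * (W : ℝ) ^ 2 * (2 + m) * 2 ^ r * S

/-- A random data structure (algorithm `A ω`, memory `mem ω e Y`, with probability `p ω`) answers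
every query correctly with probability at least `1 / 2 + δ`. -/
def Solves {k S W u : ℕ} {Ω : Type} [Fintype Ω] (p : Ω → ℝ) (A : Ω → Alg k S W)
    (mem : Ω → (Fin k → Fin u) → (Fin k → Fin u → Bool) → Fin S → Fin W) (δ : ℝ) : Prop :=
  (∀ ω, 0 ≤ p ω) ∧ ∑ ω, p ω = 1 ∧
    ∀ (e : Fin k → Fin u) (Y : Fin k → Fin u → Bool) (i j : Fin k),
      1 / 2 + δ ≤ ∑ ω with (A ω).run (mem ω e Y) i j = Y j (e i), p ω

/-- **Piece PAR** (from `S_GOOD` and `S_CORE`): choice of the parameters `k`, `u`. -/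
def S_PAR : Prop := ∀ (N S W : ℕ) (δ : ℝ), 2 ≤ N → 1 ≤ S → 1 ≤ W → 0 < δ → δ ≤ 1 / 2 →
  10 ^ 13 * (S : ℝ) * (W : ℝ) ^ 6 * (Real.logb 2 (N / δ)) ^ 6 < δ ^ 6 * (N : ℝ) ^ 2 →
  ∃ k u : ℕ, 1 ≤ k ∧ 1 ≤ u ∧ k * (u + 1) ≤ N ∧
    ∀ (Ω : Type) [Fintype Ω] (p : Ω → ℝ) (A : Ω → Alg k S W)
      (mem : Ω → (Fin k → Fin u) → (Fin k → Fin u → Bool) → Fin S → Fin W),
      ¬ Solves p A mem δ

/-! ### SetIntersection -/

/-- A data structure for families of `m` subsets of a universe with `u` elements, with `S` cells with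
`W` possible contents each; the query algorithms are arbitrary decision trees which probe cells. -/
structure SetDS (m u S W : ℕ) where
  /-- the contents of the cells for a family of sets -/
  memory : (Fin m → Finset (Fin u)) → Fin S → Fin W
  /-- the query algorithm for the sets with the indices `i` and `j` -/
  query : Fin m → Fin m → Pool.Agent.W964.Si.Alg S W (Finset (Fin u))

/-- The random data structure `D` (with probabilities `p`) lists the intersection of any two members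
of any family of total size at most `N` with at most `C * (T + op)` probes, with probability at least
`1 / 2 + δ` for every family and every query. -/
def SetSolves {m u S W : ℕ} {Ω : Type} [Fintype Ω] (p : Ω → ℝ) (D : Ω → SetDS m u S W)
    (N : ℕ) (δ C T : ℝ) : Prop :=
  (∀ ω, 0 ≤ p ω) ∧ ∑ ω, p ω = 1 ∧
    ∀ F : Fin m → Finset (Fin u), ∑ l, (F l).card ≤ N → ∀ i j : Fin m,
      1 / 2 + δ ≤ ∑ ω with ((D ω).query i j).out ((D ω).memory F) = F i ∩ F j ∧
        (((D ω).query i j).probes ((D ω).memory F) : ℝ) ≤ C * (T + ((F i ∩ F j).card : ℝ)), p ω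

/-- **Piece SET** (from `S_PAR`). -/
def S_SET : Prop := ∀ (N S W : ℕ) (δ C T : ℝ), 2 ≤ N → 1 ≤ S → 1 ≤ W → 0 < δ → δ ≤ 1 / 2 →
  C * T < 3 →
  ∃ m u : ℕ, ∀ (Ω : Type) [Fintype Ω] (p : Ω → ℝ) (D : Ω → SetDS m u S W),
    SetSolves p D N δ C T →
      δ ^ 6 * (N : ℝ) ^ 2 ≤ 10 ^ 13 * (S : ℝ) * (W : ℝ) ^ 6 * (Real.logb 2 (N / δ)) ^ 6

/-! ### 3SUM-Indexing -/

/-- A data structure for two arrays of `n` integers, with `S` cells with `W` possible contents
each; the query algorithms are arbitrary decision trees which probe cells. -/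
structure SumDS (n S W : ℕ) where
  /-- the contents of the cells for a pair of arrays -/
  memory : (Fin n → ℕ) → (Fin n → ℕ) → Fin S → Fin W
  /-- the algorithm for the query `z` -/
  query : ℕ → Pool.Agent.W964.Si.Alg S W Bool

/-- For all arrays of `n` integers from `{0, …, n ^ 3}` and all `z`, the random data structure
`D` (with probabilities `p`) decides with at most two probes whether `z` is the sum of an element of the
first array and an element of the second array, correctly with probability at least `1 / 2 + δ`. -/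
def SumSolves {n S W : ℕ} {Ω : Type} [Fintype Ω] (p : Ω → ℝ) (D : Ω → SumDS n S W) (δ : ℝ) : Prop :=
  (∀ ω, 0 ≤ p ω) ∧ ∑ ω, p ω = 1 ∧
    ∀ A₁ A₂ : Fin n → ℕ, (∀ i, A₁ i ≤ n ^ 3) → (∀ i, A₂ i ≤ n ^ 3) → ∀ z : ℕ,
      1 / 2 + δ ≤ ∑ ω with (((D ω).query z).out ((D ω).memory A₁ A₂) = true ↔
          ∃ i j, A₁ i + A₂ j = z) ∧
        ((D ω).query z).probes ((D ω).memory A₁ A₂) ≤ 2, p ω

/-- **Piece SUM** (from `S_PAR`). -/
def S_SUM : Prop := ∀ (n S W : ℕ) (δ : ℝ), 2 ≤ n → 1 ≤ S → 1 ≤ W → 0 < δ → δ ≤ 1 / 2 →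
  ∀ (Ω : Type) [Fintype Ω] (p : Ω → ℝ) (D : Ω → SumDS n S W), SumSolves p D δ →
    δ ^ 6 * (n : ℝ) ^ 2 ≤ 10 ^ 13 * (S : ℝ) * (W : ℝ) ^ 6 * (Real.logb 2 (n / δ)) ^ 6

/-! ### The linear algebra -/

/-- **Piece MOM**: moment lemma. -/
def S_MOM : Prop := ∀ (X ι : Type) [Fintype X] [Fintype ι] (C : ι → X → X → ℝ) (l : X → ℝ)
  (ρ κ M δ : ℝ) (r : ℕ) (f : (ι → Bool) → X → ℝ),
  (∀ α x y, C α x y = C α y x) → (∀ x, 0 < l x) → 0 < κ → 0 < δ → 0 < M → 1 ≤ r →
  (∀ x, ∑ α, ∑ y, |C α x y| ≤ ρ * l x) → (∀ x α, ∑ y, |C α x y| ≤ κ * l x) →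
  2 ^ r * κ ≤ ρ → Fintype.card X ≤ 2 ^ (2 ^ r) →
  (∀ Y, ∑ x, l x * f Y x ^ 2 ≤ M) →
  δ * M * 2 ^ (Fintype.card ι) ≤ ∑ Y, ∑ x, ∑ y, f Y x * (∑ α, sg (Y α) * C α x y) * f Y y →
  δ ^ 2 ≤ 16 * ρ * κ * 2 ^ r

end Pool.Agent.R563.TP
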