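import Pool.Agent.R563.TP.Stm

set_option autoImplicit false

/-!
# Piece SUM: from the parity queries to 3SUM-Indexing
-/

namespace Pool.Agent.R563.TP

open Finset
open scoped Classical

namespace SumP

lemma decode (k u i i' j j' a b : ℕ) (hi : i < k) (hi' : i' < k) (ha : a < u) (hb : b < u)
    (h : 2 * u * i' + a + (2 * u * k * j' + (u - 1 - b)) = 2 * u * (i + k * j) + (u - 1)) :
    i' = i ∧ j' = j ∧ a = b := by
  have h1 : 2 * u * (i' + k * j') + (a + (u - 1 - b)) = 2 * u * (i + k * j) + (u - 1) := by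
    rw [← h]
    ring
  have h2 : a + (u - 1 - b) < 2 * u := by omega
  have h3 : u - 1 < 2 * u := by omega
  have h4 : (2 * u * (i' + k * j') + (a + (u - 1 - b))) % (2 * u) =
      (2 * u * (i + k * j) + (u - 1)) % (2 * u) := by rw [h1]
  rw [Nat.mul_add_mod, Nat.mul_add_mod, Nat.mod_eq_of_lt h2, Nat.mod_eq_of_lt h3] at h4
  have h5 : (2 * u * (i' + k * j') + (a + (u - 1 - b))) / (2 * u) =
      (2 * u * (i + k * j) + (u - 1)) / (2 * u) := by rw [h1]
  rw [Nat.mul_add_div (by omega), Nat.mul_add_div (by omega), Nat.div_eq_of_lt h2,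
    Nat.div_eq_of_lt h3] at h5
  have h6 : (i' + k * j') % k = (i + k * j) % k := by
    rw [show i' + k * j' = i + k * j by omega]
  rw [Nat.add_mul_mod_self_left, Nat.add_mul_mod_self_left, Nat.mod_eq_of_lt hi',
    Nat.mod_eq_of_lt hi] at h6
  have h7 : (i' + k * j') / k = (i + k * j) / k := by
    rw [show i' + k * j' = i + k * j by omega]
  have hk : 0 < k := by omega
  rw [Nat.add_mul_div_left _ _ hk, Nat.add_mul_div_left _ _ hk, Nat.div_eq_of_lt hi',
    Nat.div_eq_of_lt hi] at h7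
  exact ⟨h6, by omega, by omega⟩

/-- the first array -/
def arr1 (n k u : ℕ) (e : Fin k → Fin u) (t : Fin n) : ℕ :=
  if h : t.val < k then 2 * u * t.val + (e ⟨t.val, h⟩).val else n ^ 3

/-- the second array -/
def arr2 (n k u : ℕ) (Y : Fin k → Fin u → Bool) (t : Fin n) : ℕ :=
  if h : t.val / u < k ∧ 0 < u then
    (if Y ⟨t.val / u, h.1⟩ ⟨t.val % u, Nat.mod_lt _ h.2⟩ = true then
      2 * u * k * (t.val / u) + (u - 1 - t.val % u) else n ^ 3)
  else n ^ 3

/-- the query -/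
def qz (k u : ℕ) (i j : Fin k) : ℕ := 2 * u * (i.val + k * j.val) + (u - 1)

lemma size {n k u : ℕ} (hk : 1 ≤ k) (hu : 1 ≤ u) (hn : k * (u + 1) ≤ n) :
    2 * u * (k * k) ≤ n ^ 3 := by
  have h1 : 1 ≤ n := le_trans (Nat.mul_pos hk (by omega)) hn
  have h2 : (k * (u + 1)) ^ 2 ≤ n ^ 2 := Nat.pow_le_pow_left hn 2
  have h3 : n ^ 2 ≤ n ^ 3 := Nat.pow_le_pow_right h1 (by norm_num)
  have h4 : 2 * u * (k * k) ≤ (k * (u + 1)) ^ 2 := by
    have : (k * (u + 1)) ^ 2 = (k * k) * (u * u + 2 * u + 1) := by ring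
    rw [this]
    have h5 : 2 * u ≤ u * u + 2 * u + 1 := by omega
    calc 2 * u * (k * k) = (k * k) * (2 * u) := by ring
      _ ≤ _ := Nat.mul_le_mul_left _ h5
  omega

lemma pair_lt {k : ℕ} (i j : Fin k) : i.val + k * j.val + 1 ≤ k * k := by
  have h1 := i.2
  have h2 : k * (j.val + 1) ≤ k * k := Nat.mul_le_mul_left _ j.2
  rw [Nat.mul_add] at h2
  omega

lemma qz_lt {n k u : ℕ} (hk : 1 ≤ k) (hu : 1 ≤ u) (hn : k * (u + 1) ≤ n) (i j : Fin k) :
    qz k u i j < n ^ 3 := by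
  have h1 := size hk hu hn
  have h2 : 2 * u * (i.val + k * j.val + 1) ≤ 2 * u * (k * k) :=
    Nat.mul_le_mul_left _ (pair_lt i j)
  rw [Nat.mul_add] at h2
  unfold qz
  omega

lemma arr1_le {n k u : ℕ} (hk : 1 ≤ k) (hu : 1 ≤ u) (hn : k * (u + 1) ≤ n)
    (e : Fin k → Fin u) (t : Fin n) : arr1 n k u e t ≤ n ^ 3 := by
  unfold arr1
  split_ifs with h
  · have h1 := size hk hu hn
    have h2 := (e ⟨t.val, h⟩).2
    have h3 : 2 * u * (t.val + 1) ≤ 2 * u * (k * k) :=
      Nat.mul_le_mul_left _ (le_trans (by omega : t.val + 1 ≤ k) (Nat.le_mul_of_pos_left _ hk))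
    rw [Nat.mul_add] at h3
    omega
  · exact le_rfl

lemma arr2_le {n k u : ℕ} (hk : 1 ≤ k) (hu : 1 ≤ u) (hn : k * (u + 1) ≤ n)
    (Y : Fin k → Fin u → Bool) (t : Fin n) : arr2 n k u Y t ≤ n ^ 3 := by
  unfold arr2
  split_ifs with h h'
  · have h1 := size hk hu hn
    have h3 : 2 * u * k * (t.val / u + 1) ≤ 2 * u * k * k := Nat.mul_le_mul_left _ (by omega)
    have h4 : 2 * u * k * k = 2 * u * (k * k) := by ring
    rw [Nat.mul_add] at h3
    have h5 : u ≤ 2 * u * k * 1 := by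
      calc u = 1 * u * 1 := by ring
        _ ≤ 2 * u * k := Nat.mul_le_mul (Nat.mul_le_mul_right _ (by norm_num)) hk
        _ = _ := by ring
    omega
  · exact le_rfl
  · exact le_rfl

lemma sum_iff {n k u : ℕ} (hk : 1 ≤ k) (hu : 1 ≤ u) (hn : k * (u + 1) ≤ n)
    (e : Fin k → Fin u) (Y : Fin k → Fin u → Bool) (i j : Fin k) :
    (∃ t t', arr1 n k u e t + arr2 n k u Y t' = qz k u i j) ↔ Y j (e i) = true := by
  have hq := qz_lt hk hu hn i j
  constructor
  · rintro ⟨t, t', h⟩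
    unfold arr1 arr2 at h
    split_ifs at h with h1 h2 h3 <;> try omega
    obtain ⟨g1, g2, g3⟩ := decode k u i.val t.val j.val (t'.val / u) (e ⟨t.val, h1⟩).val
      (t'.val % u) i.2 h1 (e ⟨t.val, h1⟩).2 (Nat.mod_lt _ h2.2) h
    have e1 : (⟨t.val, h1⟩ : Fin k) = i := Fin.ext g1
    have e2 : (⟨t'.val / u, h2.1⟩ : Fin k) = j := Fin.ext g2
    have e3 : (⟨t'.val % u, Nat.mod_lt _ h2.2⟩ : Fin u) = e ⟨t.val, h1⟩ := Fin.ext g3.symm
    rw [e2, e3, e1] at h3
    exact h3
  · intro h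
    have hin : i.val < n := by
      have := i.2
      have h2 : k * 1 ≤ k * (u + 1) := Nat.mul_le_mul_left _ (by omega)
      omega
    have hjn : j.val * u + (e i).val < n := by
      have h1 := (e i).2
      have h2 : (j.val + 1) * u ≤ k * u := Nat.mul_le_mul_right _ j.2
      have h3 : k * u ≤ k * (u + 1) := Nat.mul_le_mul_left _ (by omega)
      rw [Nat.add_mul] at h2
      omega
    have hu0 : 0 < u := hu
    have hdiv : (j.val * u + (e i).val) / u = j.val := by
      rw [mul_comm, Nat.mul_add_div hu0, Nat.div_eq_of_lt (e i).2, add_zero]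
    have hmod : (j.val * u + (e i).val) % u = (e i).val := by
      rw [mul_comm, Nat.mul_add_mod, Nat.mod_eq_of_lt (e i).2]
    refine ⟨⟨i.val, hin⟩, ⟨j.val * u + (e i).val, hjn⟩, ?_⟩
    unfold arr1 arr2 qz
    have hc : (j.val * u + (e i).val) / u < k ∧ 0 < u := ⟨by rw [hdiv]; exact j.2, hu0⟩
    have e2 : (⟨(j.val * u + (e i).val) / u, hc.1⟩ : Fin k) = j := Fin.ext hdiv
    have e3 : (⟨(j.val * u + (e i).val) % u, Nat.mod_lt _ hc.2⟩ : Fin u) = e i := Fin.ext hmod
    simp only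
    rw [dif_pos i.2, dif_pos hc, e2, e3, if_pos h, hdiv, hmod]
    have h1 := (e i).2
    have h2 : (e i).val + (u - 1 - (e i).val) = u - 1 := by omega
    calc 2 * u * i.val + (e i).val + (2 * u * k * j.val + (u - 1 - (e i).val))
        = 2 * u * (i.val + k * j.val) + ((e i).val + (u - 1 - (e i).val)) := by ring
      _ = _ := by rw [h2]

/-- the first cell -/
def cell1 {S W : ℕ} (s0 : Fin S) : Pool.Agent.W964.Si.Alg S W Bool → Fin S
  | .answer _ => s0
  | .probe c _ => c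

/-- the continuation -/
def next {S W : ℕ} (v : Fin W) : Pool.Agent.W964.Si.Alg S W Bool → Pool.Agent.W964.Si.Alg S W Bool
  | .answer o => .answer o
  | .probe _ nx => nx v

/-- the answer of a stopped algorithm -/
def ans {S W : ℕ} : Pool.Agent.W964.Si.Alg S W Bool → Bool
  | .answer o => o
  | .probe _ _ => false

lemma probes_next {S W : ℕ} (s0 : Fin S) (mem : Fin S → Fin W)
    (A : Pool.Agent.W964.Si.Alg S W Bool) (n : ℕ) (h : A.probes mem ≤ n + 1) :
    (next (mem (cell1 s0 A)) A).probes mem ≤ n ∧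
      (next (mem (cell1 s0 A)) A).out mem = A.out mem := by
  cases A with
  | answer o => exact ⟨Nat.zero_le _, rfl⟩
  | probe c nx =>
    simp only [Pool.Agent.W964.Si.Alg.probes] at h
    exact ⟨by simp only [next, cell1]; omega, rfl⟩

lemma ans_of {S W : ℕ} (mem : Fin S → Fin W) (A : Pool.Agent.W964.Si.Alg S W Bool)
    (h : A.probes mem ≤ 0) : ans A = A.out mem := by
  cases A with
  | answer o => rfl
  | probe c nx =>
    simp only [Pool.Agent.W964.Si.Alg.probes] at h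
    omega

/-- the truncated algorithm -/
def trunc {k S W : ℕ} (s0 : Fin S) (Q : Fin k → Fin k → Pool.Agent.W964.Si.Alg S W Bool) :
    Alg k S W where
  a i j := cell1 s0 (Q i j)
  b i j v := cell1 s0 (next v (Q i j))
  g i j v v' := ans (next v' (next v (Q i j)))

lemma trunc_run {k S W : ℕ} (s0 : Fin S) (Q : Fin k → Fin k → Pool.Agent.W964.Si.Alg S W Bool)
    (mem : Fin S → Fin W) (i j : Fin k) (h : (Q i j).probes mem ≤ 2) :
    (trunc s0 Q).run mem i j = (Q i j).out mem := by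
  obtain ⟨h1, h2⟩ := probes_next s0 mem (Q i j) 1 h
  obtain ⟨h3, h4⟩ := probes_next s0 mem _ 0 h1
  have h5 := ans_of mem _ h3
  show ans (next (mem (cell1 s0 (next (mem (cell1 s0 (Q i j))) (Q i j))))
    (next (mem (cell1 s0 (Q i j))) (Q i j))) = _
  rw [h5, h4, h2]

end SumP

open SumP

theorem sum (h : S_PAR) : S_SUM := by
  intro n S W δ hn hS hW hδ hδ2 Ω _ p D hD
  by_contra hcon
  push Not at hcon
  obtain ⟨k, u, hk, hu, hku, hno⟩ := h n S W δ hn hS hW hδ hδ2 hcon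
  obtain ⟨hp0, hp1, hgood⟩ := hD
  let s0 : Fin S := ⟨0, hS⟩
  refine hno Ω p (fun ω => trunc s0 (fun i j => (D ω).query (qz k u i j)))
    (fun ω e Y => (D ω).memory (arr1 n k u e) (arr2 n k u Y)) ⟨hp0, hp1, ?_⟩
  intro e Y i j
  refine (hgood (arr1 n k u e) (arr2 n k u Y) (arr1_le hk hu hku e) (arr2_le hk hu hku Y)
    (qz k u i j)).trans ?_
  apply Finset.sum_le_sum_of_subset_of_nonneg
  · intro ω hω
    rw [Finset.mem_filter] at hω ⊢
    refine ⟨Finset.mem_univ _, ?_⟩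
    obtain ⟨-, h1, h2⟩ := hω
    rw [trunc_run s0 _ _ i j h2]
    rw [sum_iff hk hu hku] at h1
    exact Bool.eq_iff_iff.2 h1
  · intro ω _ _
    exact hp0 ω

end Pool.Agent.R563.TP
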